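import Pool.Agent.H256R2.BM.Defs
import Pool.Agent.H216R2.BB.G7pre
import Pool.Agent.H216R2.BB.G5
import Pool.Agent.H216R2.BB.G6c

open Polynomial Pool.Agent.H337R2 Filter Topology MeasureTheory Pool.Agent.H216R2.BB

namespace Pool.Agent.H256R2.BM

noncomputable section

theorem t_ARCH (hBnd : S_BND) (hW : S_ROW) : S_ARCH := by
  intro ε hε
  obtain ⟨C1, K1, hC1, hS⟩ := G6_sat
  obtain ⟨C2, K2, N0, hC2, hN0, hR⟩ := hW
  set c : ℝ := 3 * Real.log 3 + 2 * |Real.log (1 + 16 * (C1 * C2))| + 2 * Real.log 4 +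
    2 * |Real.log C2| + 2 * |Phi0| with hc
  have hev := G7.final_ev c (3 + 2 * (K1 + K2) + 2 * K2) (ε / 2) (by positivity)
  have htd : Tendsto (fun N : ℕ => 24 * N + 1) atTop atTop := by
    apply tendsto_atTop_mono (fun N => _) tendsto_id
    intro N
    show N ≤ 24 * N + 1
    omega
  filter_upwards [htd.eventually hev, eventually_ge_atTop N0, G5_zone (ε / 2) (by positivity)] with
    N hN hN5' hZ n hn u hu hD
  have hN5 : 100 ≤ N := by omega
  obtain ⟨al, hal, hal1, hHH, hsum⟩ := hR N hN5' n hn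
  have hn1 : (1 : ℝ) ≤ n := by exact_mod_cast (by omega : 1 ≤ n)
  have hn0 : (0 : ℝ) < n := by linarith
  have hBN : 0 < BN n N := by unfold BN; positivity
  have hBH1 : 1 ≤ C2 * (n : ℝ) ^ K2 * BN n N := by
    have h1 := hHH 0
    have h2 := G7b.wt_nonneg n N 0
    have h3 : 0 ≤ wt n N 0 * ‖aeval (xz n (32 * N) 0) (ZZ n (32 * N) * HH n N)‖ ^ 2 := by positivity
    linarith
  have hB := hBnd hN5 hn u hu al (C2 * (n : ℝ) ^ K2 * BN n N) hBH1 hal hal1 hHH
  have hcore := G7.core hn hC1 hC2 (fun l hl => hS N hN5 n hn l hl) al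
    ((DET n u (60 * N) : ℚ) : ℝ) (by exact_mod_cast hD) hB
  have hZ' := hZ n hn
  rw [← hn] at hN
  have hl : 0 ≤ Real.log n := Real.log_natCast_nonneg n
  have hl2 : 0 ≤ Real.log 2 := Real.log_nonneg (by norm_num)
  have hl3 : 0 ≤ Real.log 3 := Real.log_nonneg (by norm_num)
  have hl4 : 0 ≤ Real.log 4 := Real.log_nonneg (by norm_num)
  have hNn : (n : ℝ) = 24 * N + 1 := by rw [hn]; push_cast; ring
  have hN0 : (0 : ℝ) ≤ N := by positivity
  have hNle : 24 * (N : ℝ) ≤ n := by linarith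
  have hNsq : (N : ℝ) ^ 2 ≤ (n : ℝ) ^ 2 / 576 := by
    have h := pow_le_pow_left₀ (by positivity : 0 ≤ 24 * (N : ℝ)) hNle 2
    rw [mul_pow] at h
    linarith only [h]
  -- factorial
  have p1 : Real.log ((60 * N).factorial : ℝ) ≤ 3 * n * Real.log 3 + 3 * n * Real.log n := by
    have hf : (0 : ℝ) < ((60 * N).factorial : ℝ) := by exact_mod_cast Nat.factorial_pos _
    have hm0 : (0 : ℝ) < ((60 * N : ℕ) : ℝ) := by exact_mod_cast (by omega : 0 < 60 * N)
    have hfac : Real.log ((60 * N).factorial : ℝ) ≤ (60 * N : ℕ) * Real.log (60 * N : ℕ) := by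
      rw [← Real.log_pow]
      apply Real.log_le_log hf
      exact_mod_cast Nat.factorial_le_pow (60 * N)
    have h60 : ((60 * N : ℕ) : ℝ) ≤ 3 * n := by
      have : 60 * N ≤ 3 * n := by omega
      exact_mod_cast this
    have hlog : Real.log ((60 * N : ℕ) : ℝ) ≤ Real.log 3 + Real.log n := by
      rw [← Real.log_mul (by norm_num) (by positivity)]
      exact Real.log_le_log hm0 h60
    calc Real.log ((60 * N).factorial : ℝ) ≤ (60 * N : ℕ) * Real.log (60 * N : ℕ) := hfac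
      _ ≤ (60 * N : ℕ) * (Real.log 3 + Real.log n) := mul_le_mul_of_nonneg_left hlog hm0.le
      _ ≤ 3 * n * (Real.log 3 + Real.log n) := mul_le_mul_of_nonneg_right h60 (by positivity)
      _ = _ := by ring
  have p2 : 32 * (N : ℝ) * (Real.log (1 + 16 * (C1 * C2)) + ((K1 : ℝ) + K2) * Real.log n) ≤
      2 * n * |Real.log (1 + 16 * (C1 * C2))| + 2 * n * (((K1 : ℝ) + K2) * Real.log n) := by
    have h32 : 32 * (N : ℝ) ≤ 2 * n := by linarith
    calc 32 * (N : ℝ) * (Real.log (1 + 16 * (C1 * C2)) + ((K1 : ℝ) + K2) * Real.log n)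
        ≤ 32 * (N : ℝ) * (|Real.log (1 + 16 * (C1 * C2))| + ((K1 : ℝ) + K2) * Real.log n) := by
          apply mul_le_mul_of_nonneg_left _ (by positivity)
          linarith [le_abs_self (Real.log (1 + 16 * (C1 * C2)))]
      _ ≤ 2 * n * (|Real.log (1 + 16 * (C1 * C2))| + ((K1 : ℝ) + K2) * Real.log n) :=
          mul_le_mul_of_nonneg_right h32 (by positivity)
      _ = _ := by ring
  have p3 : 24 / 5 * (N : ℝ) * n ≤ 1 / 5 * (n : ℝ) ^ 2 := by
    have := mul_le_mul_of_nonneg_right hNle hn0.le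
    linarith only [this, sq (n : ℝ)]
  have p4 : 28 * (N : ℝ) * Real.log 4 ≤ 2 * n * Real.log 4 := by
    apply mul_le_mul_of_nonneg_right _ hl4
    linarith
  have p5 : 28 * (N : ℝ) * (Real.log C2) ≤ 2 * n * |Real.log C2| := by
    calc 28 * (N : ℝ) * (Real.log C2) ≤ 28 * (N : ℝ) * |Real.log C2| :=
          mul_le_mul_of_nonneg_left (le_abs_self _) (by positivity)
      _ ≤ _ := mul_le_mul_of_nonneg_right (by linarith) (abs_nonneg _)
  have p6 : 28 * (N : ℝ) * (K2 * Real.log n) ≤ 2 * n * (K2 * Real.log n) :=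
    mul_le_mul_of_nonneg_right (by linarith) (by positivity)
  have p7 : 28 * (N : ℝ) * (n * Phi0) ≤ 7 / 6 * Phi0 * (n : ℝ) ^ 2 + 2 * n * |Phi0| := by
    have e : 28 * (N : ℝ) = 7 / 6 * (n - 1) := by rw [hNn]; ring
    rw [e]
    have h1 : - (7 / 6 * (n : ℝ) * Phi0) ≤ 2 * n * |Phi0| := by
      have h2 : - (7 / 6 * Phi0) ≤ 2 * |Phi0| := by
        linarith only [neg_abs_le Phi0, abs_nonneg Phi0]
      have h3 := mul_le_mul_of_nonneg_left h2 hn0.le
      linarith only [h3]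
    have h4 : 7 / 6 * ((n : ℝ) - 1) * (n * Phi0) = 7 / 6 * Phi0 * (n : ℝ) ^ 2 - 7 / 6 * (n : ℝ) * Phi0 := by ring
    rw [h4]
    linarith only [h1]
  have p8 : 28 * (N : ℝ) * (128 * N * Real.log n) + 2 * (28 * (N : ℝ)) ^ 2 * Real.log n ≤
      161 / 18 * (n : ℝ) ^ 2 * Real.log n := by
    have e : 28 * (N : ℝ) * (128 * N * Real.log n) + 2 * (28 * (N : ℝ)) ^ 2 * Real.log n =
        (5152 * (N : ℝ) ^ 2) * Real.log n := by ring
    rw [e]
    apply mul_le_mul_of_nonneg_right _ hl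
    linarith only [hNsq]
  have p9 : 528 * (N : ℝ) ^ 2 * Real.log 2 ≤ 11 / 12 * Real.log 2 * (n : ℝ) ^ 2 := by
    have h := mul_le_mul_of_nonneg_right hNsq hl2
    linarith only [h]
  have hN' : (n : ℝ) * (c + (3 + 2 * ((K1 : ℝ) + K2) + 2 * K2) * Real.log n) ≤ ε / 2 * (n : ℝ) ^ 2 := by
    have := hN
    push_cast at this
    exact this
  rw [hc] at hN'
  have e0 : 28 * (N : ℝ) * (Real.log C2 + K2 * Real.log n + n * Phi0 + 128 * N * Real.log n) +
        2 * (28 * N) ^ 2 * Real.log n + 528 * (N : ℝ) ^ 2 * Real.log 2 =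
      28 * (N : ℝ) * (Real.log C2) + 28 * (N : ℝ) * (K2 * Real.log n) + 28 * (N : ℝ) * (n * Phi0) +
      (28 * (N : ℝ) * (128 * N * Real.log n) + 2 * (28 * (N : ℝ)) ^ 2 * Real.log n) +
      528 * (N : ℝ) ^ 2 * Real.log 2 := by ring
  rw [e0] at hsum
  have e2 : (n : ℝ) * (3 * Real.log 3 + 2 * |Real.log (1 + 16 * (C1 * C2))| + 2 * Real.log 4 +
      2 * |Real.log C2| + 2 * |Phi0| + (3 + 2 * ((K1 : ℝ) + K2) + 2 * K2) * Real.log n) =
      3 * n * Real.log 3 + 3 * n * Real.log n + 2 * n * |Real.log (1 + 16 * (C1 * C2))| +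
      2 * n * (((K1 : ℝ) + K2) * Real.log n) + 2 * n * Real.log 4 + 2 * n * |Real.log C2| +
      2 * n * (K2 * Real.log n) + 2 * n * |Phi0| := by ring
  have e3 : 25 / 2 * (n : ℝ) ^ 2 * Real.log n +
        (ZT + 7 / 6 * Phi0 + 1 / 5 + 11 / 12 * Real.log 2 + ε) * (n : ℝ) ^ 2 =
      32 / 9 * (n : ℝ) ^ 2 * Real.log n + 161 / 18 * (n : ℝ) ^ 2 * Real.log n +
      (ZT + ε / 2) * (n : ℝ) ^ 2 + 7 / 6 * Phi0 * (n : ℝ) ^ 2 + 1 / 5 * (n : ℝ) ^ 2 +
      11 / 12 * Real.log 2 * (n : ℝ) ^ 2 + ε / 2 * (n : ℝ) ^ 2 := by ring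
  rw [e2] at hN'
  rw [e3]
  linarith only [hcore, hsum, hZ', p1, p2, p3, p4, p5, p6, p7, p8, p9, hN']

end

end Pool.Agent.H256R2.BM
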