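import Pool.Agent.H256R2.BM.Defs
import Pool.Agent.H216R2.BB.B1
import Pool.Agent.H216R2.BB.B2
import Pool.Agent.H216R2.BB.A7
import Pool.Agent.H336R2.HD.A3

open MeasureTheory Filter Topology Complex Polynomial Pool.Agent.H337R2 Pool.Agent.H216R2.BB

namespace Pool.Agent.H256R2.BM

noncomputable section

/-- the true linear form minus the finite part -/
def Del (n T : ℕ) (Q : ℚ[X]) : ℝ :=
  ∑ i ∈ Finset.Icc 1 5, ∑ k ∈ sB n, ((-1) ^ k * (pa (sB n) m5 (PPn n * EE n Q) k i : ℝ)) *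
        (lamB i - ((bsZ i ((k : ℤ) + T) : ℚ) : ℝ))

theorem B1_real' {n T : ℕ} (hn : 2 ≤ n) (u : ℕ → ℚ) (Q : ℚ[X]) (hQ : Q.natDegree ≤ 5 * n - 7) :
    ((NL n u Q - ∑ t ∈ Finset.range T, (-1) ^ t * wh n t * Q.eval (xh n t) : ℚ) : ℝ) =
      Del n T Q + ∑ i ∈ Finset.Icc 1 5, ((rho n i Q : ℚ) : ℝ) * ((u i : ℝ) - lamB i) := by
  rw [NL_apply, B1_fin hn T Q hQ]
  unfold xf Del rho
  rw [← Finset.sum_sub_distrib, ← Finset.sum_add_distrib]
  rw [Rat.cast_sum]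
  apply Finset.sum_congr rfl
  intro i hi
  have e1 : (∑ k ∈ sB n, (-1) ^ k * pa (sB n) m5 (PPn n * EE n Q) k i) * u i -
      ∑ k ∈ sB n, (-1) ^ k * (pa (sB n) m5 (PPn n * EE n Q) k i * bsZ i (k : ℤ)) -
      ∑ k ∈ sB n, (-1) ^ k * (pa (sB n) m5 (PPn n * EE n Q) k i *
        (bsZ i ((k : ℤ) + T) - bsZ i (k : ℤ))) =
      (∑ k ∈ sB n, (-1) ^ k * pa (sB n) m5 (PPn n * EE n Q) k i) * u i -
      ∑ k ∈ sB n, (-1) ^ k * (pa (sB n) m5 (PPn n * EE n Q) k i * bsZ i ((k : ℤ) + T)) := by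
    rw [sub_sub, ← Finset.sum_add_distrib]
    congr 1
    apply Finset.sum_congr rfl
    intro k _
    ring
  rw [e1]
  have e3 : ∑ k ∈ sB n, ((-1) ^ k * (pa (sB n) m5 (PPn n * EE n Q) k i : ℝ)) *
        (lamB i - ((bsZ i ((k : ℤ) + T) : ℚ) : ℝ)) =
      ((∑ k ∈ sB n, (-1) ^ k * pa (sB n) m5 (PPn n * EE n Q) k i : ℚ) : ℝ) * lamB i -
      ((∑ k ∈ sB n, (-1) ^ k * (pa (sB n) m5 (PPn n * EE n Q) k i * bsZ i ((k : ℤ) + T)) : ℚ) : ℝ) := by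
    push_cast
    rw [Finset.sum_mul, ← Finset.sum_sub_distrib]
    apply Finset.sum_congr rfl
    intro k _
    ring
  rw [e3, Rat.cast_sub, Rat.cast_mul]
  ring

theorem Del_int {n T : ℕ} (hn : 2 ≤ n) (hT : 1 ≤ T) (Q : ℚ[X]) (hQ : Q.natDegree ≤ 5 * n - 7) :
    ((Del n T Q : ℝ) : ℂ) =
      (1 / 2) * (-1) ^ T * ∫ y : ℝ, (Rn n T y * xz n T y ^ 7 * aeval (xz n T y) Q) *
        (((Real.cosh (Real.pi * y))⁻¹ : ℝ) : ℂ) := by
  have hsech : ∀ {A i : ℕ}, 1 ≤ A → 1 ≤ i →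
      Integrable (fun y : ℝ => li (A : ℝ) y ^ i * (((Real.cosh (Real.pi * y))⁻¹ : ℝ) : ℂ)) ∧
      ((lamB i - ((bsZ i (A : ℤ) : ℚ) : ℝ) : ℝ) : ℂ) =
        (1 / 2) * (-1) ^ A * ∫ y : ℝ, li (A : ℝ) y ^ i * (((Real.cosh (Real.pi * y))⁻¹ : ℝ) : ℂ) :=
    fun hA hi => B0_sech hA hi
  unfold Del
  set P := PPn n * EE n Q with hP
  set ch : ℝ → ℂ := fun y => (((Real.cosh (Real.pi * y))⁻¹ : ℝ) : ℂ) with hch
  -- the integrand as a sum
  have hint : ∀ y : ℝ, Rn n T y * xz n T y ^ 7 * aeval (xz n T y) Q * ch y =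
      ∑ i ∈ Finset.Icc 1 5, ∑ k ∈ sB n, ((pa (sB n) m5 P k i : ℚ) : ℂ) *
        (li ((k + T : ℕ) : ℝ) y ^ i * ch y) := by
    intro y
    have hz : ∀ k ∈ sB n, zt T y + (k : ℂ) ≠ 0 := by
      intro k _
      have e : zt T y + (k : ℂ) = (((k + T : ℕ) : ℝ) : ℂ) + y * I := by
        unfold zt; push_cast; ring
      rw [e]
      exact lf_ne (by positivity) y
    have h1 := B1_pf (sB n) P (B1_deg hn Q hQ) (zt T y) hz
    have h3 : Rn n T y * xz n T y ^ 7 * aeval (xz n T y) Q =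
        aeval (zt T y) P / aeval (zt T y) (QQ (sB n) m5) := by
      rw [hP, map_mul, B1_aeval_EE]
      unfold Rn
      ring
    rw [h3, h1, Finset.sum_comm, Finset.sum_mul]
    apply Finset.sum_congr rfl
    intro i _
    rw [Finset.sum_mul]
    apply Finset.sum_congr rfl
    intro k _
    have e : (zt T y + (k : ℂ))⁻¹ = li ((k + T : ℕ) : ℝ) y := by
      unfold li zt
      push_cast
      congr 1
      ring
    rw [e]
    ring
  have hI : (∫ y : ℝ, Rn n T y * xz n T y ^ 7 * aeval (xz n T y) Q *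
      (((Real.cosh (Real.pi * y))⁻¹ : ℝ) : ℂ)) = ∫ y : ℝ, ∑ i ∈ Finset.Icc 1 5, ∑ k ∈ sB n,
        ((pa (sB n) m5 P k i : ℚ) : ℂ) * (li ((k + T : ℕ) : ℝ) y ^ i * ch y) :=
    integral_congr_ae (Filter.Eventually.of_forall hint)
  rw [hI, integral_finsetSum]
  · rw [Complex.ofReal_sum, Finset.mul_sum]
    apply Finset.sum_congr rfl
    intro i hi
    have hi1 : 1 ≤ i := (Finset.mem_Icc.1 hi).1
    rw [integral_finsetSum]
    · rw [Complex.ofReal_sum, Finset.mul_sum]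
      apply Finset.sum_congr rfl
      intro k _
      obtain ⟨-, h5⟩ := hsech (A := k + T) (i := i) (by omega) hi1
      rw [integral_const_mul, Complex.ofReal_mul]
      have e1 : (((k + T : ℕ) : ℤ)) = (k : ℤ) + T := by push_cast; ring
      rw [e1] at h5
      have e3 : (∫ y : ℝ, li ((k + T : ℕ) : ℝ) y ^ i * ch y) =
        ∫ y : ℝ, li ((k + T : ℕ) : ℝ) y ^ i * (((Real.cosh (Real.pi * y))⁻¹ : ℝ) : ℂ) := rfl
      rw [h5, e3]
      generalize (∫ y : ℝ, li ((k + T : ℕ) : ℝ) y ^ i * (((Real.cosh (Real.pi * y))⁻¹ : ℝ) : ℂ)) = JJ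
      have e2 : ((-1 : ℂ)) ^ k * (-1) ^ (k + T) = (-1) ^ T := by
        rw [pow_add, ← mul_assoc, ← mul_pow]
        simp
      rw [← e2]
      push_cast
      ring
    · intro k _
      exact ((hsech (A := k + T) (i := i) (by omega) hi1).1).const_mul _
  · intro i hi
    have hi1 : 1 ≤ i := (Finset.mem_Icc.1 hi).1
    apply integrable_finsetSum
    intro k _
    exact ((hsech (A := k + T) (i := i) (by omega) hi1).1).const_mul _

theorem Del_le {n T : ℕ} (hn : 2 ≤ n) (hT : 1 ≤ T) (Q : ℚ[X]) (hQ : Q.natDegree ≤ 5 * n - 7) (B : ℝ)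
    (hB : ∀ y : ℝ, ‖Rn n T y‖ * ‖xz n T y‖ ^ 7 * ‖aeval (xz n T y) Q‖ * Real.exp (-(Real.pi * |y|)) ≤
      B * (1 + y ^ 2)⁻¹) : |Del n T Q| ≤ 4 * B := by
  refine B2L.int_bound _ T (fun y => Rn n T y * xz n T y ^ 7 * aeval (xz n T y) Q) B (Del_int hn hT Q hQ) ?_
  intro y
  simp only [norm_mul, norm_pow]
  exact hB y

end

end Pool.Agent.H256R2.BM
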