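import Pool.Agent.H256R2.BM.BND

open MeasureTheory Filter Topology Complex Polynomial Pool.Agent.H337R2 Pool.Agent.H216R2.BB

namespace Pool.Agent.H256R2.BM

noncomputable section

lemma pert (hR : S_RHO) {n N : ℕ} (hN : 100 ≤ N) (hn : n = 24 * N + 1) (u : ℕ → ℚ) (hu : Pe n u)
    {i j : ℕ} (hi : i < 60 * N) (hj : j < 60 * N) :
    |∑ c ∈ Finset.Icc 1 5, ((rho n c (Row n N i * Row n N j) : ℚ) : ℝ) * ((u c : ℝ) - lamB c)| ≤ 1 := by
  have hn5 : (5 : ℝ) ≤ n := by exact_mod_cast (by omega : 5 ≤ n)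
  have hn0 : (0 : ℝ) < n := by linarith
  have hpow : (n : ℝ) ^ (40 * n) * ((n : ℝ) ^ (41 * n))⁻¹ ≤ 1 / 5 := by
    have e : (n : ℝ) ^ (41 * n) = (n : ℝ) ^ (40 * n) * (n : ℝ) ^ n := by
      rw [← pow_add]; congr 1; ring
    have h1 : (5 : ℝ) ≤ (n : ℝ) ^ n := by
      calc (5 : ℝ) ≤ n := hn5
        _ = (n : ℝ) ^ 1 := (pow_one _).symm
        _ ≤ (n : ℝ) ^ n := pow_le_pow_right₀ (by linarith) (by omega)
    rw [e, mul_inv, ← mul_assoc, mul_inv_cancel₀ (by positivity), one_mul, inv_eq_one_div]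
    exact one_div_le_one_div_of_le (by norm_num) h1
  have hterm : ∀ c ∈ Finset.Icc 1 5,
      |((rho n c (Row n N i * Row n N j) : ℚ) : ℝ) * ((u c : ℝ) - lamB c)| ≤ 1 / 5 := by
    intro c hc
    rw [Finset.mem_Icc] at hc
    rcases Nat.even_or_odd c with h | h
    · have h24 : c = 2 ∨ c = 4 := by
        obtain ⟨d, hd⟩ := h
        omega
      have hd : |(u c : ℝ) - lamB c| ≤ ((n : ℝ) ^ (41 * n))⁻¹ := by
        rcases h24 with rfl | rfl
        · rw [abs_sub_comm]; exact hu.1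
        · rw [abs_sub_comm]; exact hu.2
      have hr : |((rho n c (Row n N i * Row n N j) : ℚ) : ℝ)| ≤ (n : ℝ) ^ (40 * n) := by
        have h1 := hR N hN n hn i hi j hj c hc.1 hc.2
        have h2 : ((|rho n c (Row n N i * Row n N j)| : ℚ) : ℝ) ≤ (((n : ℚ) ^ (40 * n) : ℚ) : ℝ) := by
          exact_mod_cast h1
        push_cast at h2
        exact h2
      rw [abs_mul]
      exact (mul_le_mul hr hd (abs_nonneg _) (by positivity)).trans hpow
    · have h0 : rho n c (Row n N i * Row n N j) = 0 := by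
        unfold rho
        exact B1_sym n _ h
      rw [h0]
      simp
  refine (Finset.abs_sum_le_sum_abs _ _).trans ?_
  refine (Finset.sum_le_sum hterm).trans ?_
  simp

lemma GG_spec {n N : ℕ} : ∀ j < 28 * N, (GG n N j).Monic ∧ (GG n N j).natDegree = j := by
  intro j hj
  obtain ⟨_, h2, _⟩ := G7a.loc_spec hj
  exact ⟨G7a.PA_monic _ _ _ _, by unfold GG; rw [G7a.PA_deg]; exact h2⟩

lemma entry' (hR : S_RHO) {n N : ℕ} (hN : 100 ≤ N) (hn : n = 24 * N + 1) (u : ℕ → ℚ) (hu : Pe n u)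
    (al : ℕ → ℝ) (BH : ℝ) (hBH : 0 ≤ BH)
    (hal : ∀ j < 28 * N, ∀ y : ℝ, wt n N y * ‖aeval (xz n (32 * N) y) (ZZ n (32 * N) * GG n N j)‖ ^ 2 ≤ Real.exp (al j))
    (hH : ∀ y : ℝ, wt n N y * ‖aeval (xz n (32 * N) y) (ZZ n (32 * N) * HH n N)‖ ^ 2 ≤ BH)
    {i j : ℕ} (hi : i < 60 * N) (hj : j < 60 * N) :
    |((NL n u (Row n N i * Row n N j) : ℚ) : ℝ)| ^ 2 ≤
      (G7b.Ar n N al BH i + 1) * (G7b.Ar n N al BH j + 1) := by
  have hbi := G7b.br_nonneg (N := N) (al := al) hBH i
  have hbj := G7b.br_nonneg (N := N) (al := al) hBH j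
  set B := Real.sqrt (G7b.br N al BH i * G7b.br N al BH j) with hB
  have hB0 : 0 ≤ B := Real.sqrt_nonneg _
  have hBsq : B ^ 2 = G7b.br N al BH i * G7b.br N al BH j := Real.sq_sqrt (mul_nonneg hbi hbj)
  have hdeg : (Row n N i * Row n N j).natDegree ≤ 5 * n - 7 := by
    have h1 := G7b.Pr_deg (n := n) (G := GG n N) GG_spec hi
    have h2 := G7b.Pr_deg (n := n) (G := GG n N) GG_spec hj
    have h3 := natDegree_mul_le (p := G7b.Pr n N (GG n N) i) (q := G7b.Pr n N (GG n N) j)
    unfold Row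
    omega
  have key' : |Del n (32 * N) (Row n N i * Row n N j)| ≤ 4 * B := by
    apply Del_le (by omega) (by omega) _ hdeg
    intro y
    have hy : (0 : ℝ) < 1 + y ^ 2 := by positivity
    rw [← div_eq_mul_inv, le_div_iff₀ hy, map_mul, norm_mul]
    have p1 := G7b.Pr_bound (G := GG n N) hal hH hi y
    have p2 := G7b.Pr_bound (G := GG n N) hal hH hj y
    have hw := G7b.wt_nonneg n N y
    have e1 : ‖Rn n (32 * N) y‖ * ‖xz n (32 * N) y‖ ^ 7 *
        (‖aeval (xz n (32 * N) y) (Row n N i)‖ * ‖aeval (xz n (32 * N) y) (Row n N j)‖) *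
        Real.exp (-(Real.pi * |y|)) * (1 + y ^ 2) =
        wt n N y * (‖aeval (xz n (32 * N) y) (Row n N i)‖ * ‖aeval (xz n (32 * N) y) (Row n N j)‖) := by
      unfold wt; ring
    rw [e1]
    apply le_of_pow_le_pow_left₀ two_ne_zero hB0
    rw [hBsq]
    calc (wt n N y * (‖aeval (xz n (32 * N) y) (Row n N i)‖ * ‖aeval (xz n (32 * N) y) (Row n N j)‖)) ^ 2
        = (wt n N y * ‖aeval (xz n (32 * N) y) (Row n N i)‖ ^ 2) *
          (wt n N y * ‖aeval (xz n (32 * N) y) (Row n N j)‖ ^ 2) := by ring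
      _ ≤ _ := mul_le_mul p1 p2 (by positivity) hbi
  have hzs := G7b.zone_sum (n := n) (N := N) (G := GG n N) i j
  have hreal := B1_real' (n := n) (T := 32 * N) (by omega) u (Row n N i * Row n N j) hdeg
  have hpert := pert hR hN hn u hu hi hj
  set D : ℝ := Del n (32 * N) (Row n N i * Row n N j) with hD
  set E : ℝ := ∑ c ∈ Finset.Icc 1 5, ((rho n c (Row n N i * Row n N j) : ℚ) : ℝ) * ((u c : ℝ) - lamB c) with hE
  set x : ℝ := ((NL n u (Row n N i * Row n N j) : ℚ) : ℝ) with hx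
  set z : ℝ := ((∑ t ∈ Finset.range (32 * N), (-1) ^ t * wh n t *
    (G7b.Pr n N (GG n N) i * G7b.Pr n N (GG n N) j).eval (xh n t) : ℚ) : ℝ) with hz
  have hxe : x = z + D + E := by
    have h1 : x - z = D + E := by
      rw [hx, hz, ← Rat.cast_sub]
      exact hreal
    linarith
  have hAi := G7b.br_le_Ar (n := n) (N := N) (al := al) (BH := BH) i
  have hAj := G7b.br_le_Ar (n := n) (N := N) (al := al) (BH := BH) j
  have hAi0 := G7b.Ar_nonneg (n := n) (N := N) (al := al) hBH i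
  have hAj0 := G7b.Ar_nonneg (n := n) (N := N) (al := al) hBH j
  have h0 : |z + D| ^ 2 ≤ G7b.Ar n N al BH i * G7b.Ar n N al BH j := by
    have hzD : |z + D| ≤ |z| + |D| := abs_add_le z D
    by_cases h : i = j ∧ i < 32 * N
    · rw [if_pos h] at hzs
      obtain ⟨rfl, h2⟩ := h
      have hB' : B = G7b.br N al BH i := by
        rw [hB]
        exact Real.sqrt_mul_self hbi
      have h3 : |z + D| ≤ G7b.Ar n N al BH i := by
        rw [hB'] at key'
        unfold G7b.Ar
        unfold G7b.br at key'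
        rw [if_pos h2] at key' ⊢
        linarith
      have h4 := pow_le_pow_left₀ (abs_nonneg (z + D)) h3 2
      rw [pow_two (G7b.Ar n N al BH i)] at h4
      exact h4
    · rw [if_neg h] at hzs
      have h3 : |z + D| ≤ 4 * B := by linarith
      calc |z + D| ^ 2 ≤ (4 * B) ^ 2 := pow_le_pow_left₀ (abs_nonneg _) h3 2
        _ = (4 * G7b.br N al BH i) * (4 * G7b.br N al BH j) := by rw [mul_pow, hBsq]; ring
        _ ≤ _ := mul_le_mul hAi hAj (by positivity) (by linarith)
  set s := |z + D| with hs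
  have hs0 : 0 ≤ s := abs_nonneg _
  have hxs : |x| ≤ s + 1 := by
    rw [hxe]
    exact (abs_add_le _ _).trans (by linarith)
  set P := G7b.Ar n N al BH i with hP
  set R := G7b.Ar n N al BH j with hRR
  have h2s : 2 * s ≤ P + R := by
    have h5 : (2 * s) ^ 2 ≤ (P + R) ^ 2 := by nlinarith [sq_nonneg (P - R)]
    exact le_of_pow_le_pow_left₀ two_ne_zero (by linarith) h5
  calc |x| ^ 2 ≤ (s + 1) ^ 2 := pow_le_pow_left₀ (abs_nonneg _) hxs 2
    _ ≤ (P + 1) * (R + 1) := by nlinarith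

theorem t_BND (hR : S_RHO) : S_BND := by
  intro n N hN hn u hu al BH hBH hal hal1 hH
  have h7 := A7_gram_zone (NL n u) (60 * N) (32 * N) (xh n) (fun i _ j _ h => G7b.xh_ne n h)
    (HH n N) (G7b.HH_spec n N).1 (by rw [(G7b.HH_spec n N).2]; ring) (GG n N)
    (fun j hj => GG_spec j (by omega)) (G7b.Pr n N (GG n N))
    (fun i hi => by unfold G7b.Pr; rw [if_pos hi]; rfl)
    (fun i h1 h2 => by unfold G7b.Pr; rw [if_neg (by omega)]; rfl)
  have hVD : ∏ i ∈ Finset.range (32 * N), ∏ l ∈ (Finset.range (32 * N)).erase i, (xh n i - xh n l) =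
      VD n (32 * N) := by
    unfold VD ZE
    apply Finset.prod_congr rfl
    intro i _
    rw [eval_prod]
    simp
  rw [hVD] at h7
  have hdet : |((DET n u (60 * N) : ℚ) : ℝ)| * |((VD n (32 * N) : ℚ) : ℝ)| *
        ((∏ l ∈ Finset.range (32 * N), (HH n N).eval (xh n l) : ℚ) : ℝ) ^ 2 =
      |(Matrix.of fun i j : Fin (60 * N) => ((NL n u (Row n N i * Row n N j) : ℚ) : ℝ)).det| := by
    have h8 : ((|(Matrix.of fun i j : Fin (60 * N) => NL n u (Row n N i * Row n N j)).det| : ℚ) : ℝ) =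
        ((|DET n u (60 * N)| * |VD n (32 * N)| *
          (∏ l ∈ Finset.range (32 * N), (HH n N).eval (xh n l)) ^ 2 : ℚ) : ℝ) := by
      unfold Row
      rw [h7]
      rfl
    rw [Rat.cast_mul, Rat.cast_mul, Rat.cast_pow, Rat.cast_abs, Rat.cast_abs, Rat.cast_abs] at h8
    rw [← h8]
    congr 1
    have := RingHom.map_det (Rat.castHom ℝ)
      (Matrix.of fun i j : Fin (60 * N) => NL n u (Row n N i * Row n N j))
    simp only [Rat.coe_castHom] at this
    rw [this]
    congr 1
  rw [hdet]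
  set al' : ℕ → ℝ := fun j => al j - Real.log 2 with hal'
  have hexp : ∀ j, Real.exp (al' j) = Real.exp (al j) / 2 := by
    intro j
    rw [hal']
    simp only
    rw [Real.exp_sub, Real.exp_log (by norm_num)]
  have hA4 := Pool.Agent.H336R2.HD.A4_abs_det (60 * N)
    (Matrix.of fun i j : Fin (60 * N) => ((NL n u (Row n N i * Row n N j) : ℚ) : ℝ))
    (fun i => G7b.Ar n N al' (BH - 1) i + 1)
    (fun i => by
      have := G7b.Ar_nonneg (n := n) (N := N) (al := al') (BH := BH - 1) (by linarith) i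
      linarith) (by
      intro i j
      simp only [Matrix.of_apply]
      exact entry' hR hN hn u hu al' (BH - 1) (by linarith)
        (fun j hj y => by rw [hexp]; exact hal j hj y) (fun y => by linarith [hH y]) i.2 j.2)
  refine hA4.trans ?_
  have e : 60 * N = 32 * N + 28 * N := by ring
  rw [mul_assoc]
  apply mul_le_mul_of_nonneg_left _ (by positivity)
  rw [e, Finset.prod_range_add]
  apply mul_le_mul
  · apply Finset.prod_le_prod
    · intro i _
      have := G7b.Ar_nonneg (n := n) (N := N) (al := al') (BH := BH - 1) (by linarith) i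
      linarith
    · intro i hi
      unfold G7b.Ar
      rw [if_pos (Finset.mem_range.1 hi)]
      linarith
  · apply Finset.prod_le_prod
    · intro i _
      have := G7b.Ar_nonneg (n := n) (N := N) (al := al') (BH := BH - 1) (by linarith) (32 * N + i)
      linarith
    · intro i hi
      unfold G7b.Ar
      rw [if_neg (by omega), Nat.add_sub_cancel_left, hexp]
      have h1 := hal1 i (Finset.mem_range.1 hi)
      have h2 : 1 ≤ Real.exp (al i) := Real.one_le_exp (by linarith)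
      linarith
  · apply Finset.prod_nonneg
    intro i _
    have := G7b.Ar_nonneg (n := n) (N := N) (al := al') (BH := BH - 1) (by linarith) (32 * N + i)
    linarith
  · apply Finset.prod_nonneg
    intro i _
    have h3 : 0 ≤ Dz n N i := G7b.Dz_nonneg n N i
    linarith

end

end Pool.Agent.H256R2.BM
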