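import Pool.Agent.H216R2.BB.G7aPre
import Pool.Agent.H216R2.BB.G7b

/-!
# Simultaneous irrationality measure for `β(2), β(4)`: definitions and statements of the tasks
-/

open Polynomial Pool.Agent.H337R2 Filter Topology Pool.Agent.H216R2.BB

namespace Pool.Agent.H256R2.BM

noncomputable section

/-- coefficient of `u i` in `NL n u Q` -/
def rho (n i : ℕ) (Q : ℚ[X]) : ℚ := ∑ k ∈ sB n, (-1) ^ k * pa (sB n) m5 (PPn n * EE n Q) k i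

/-- the explicit polynomials of the contour rows -/
def GG (n N j : ℕ) : ℚ[X] := G7a.PA n N (G7a.loc N j).1 (G7a.loc N j).2

/-- the rows -/
def Row (n N i : ℕ) : ℚ[X] := G7b.Pr n N (GG n N) i

/-- `u` is close to the true values -/
def Pe (n : ℕ) (u : ℕ → ℚ) : Prop :=
  |lamB 2 - (u 2 : ℝ)| ≤ ((n : ℝ) ^ (41 * n))⁻¹ ∧ |lamB 4 - (u 4 : ℝ)| ≤ ((n : ℝ) ^ (41 * n))⁻¹

/-- sum of the absolute values of the first five Taylor coefficients at `a` -/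
def nu (a : ℚ) (P : ℚ[X]) : ℚ := ∑ d ∈ Finset.range 5, |PowerSeries.coeff d (TS a P)|

/-- task RA -/
def S_RA : Prop := ∀ (n : ℕ), 1 ≤ n → ∀ (P : ℚ[X]) (k i : ℕ), k ∈ sB n → 1 ≤ i → i ≤ 5 →
  |pa (sB n) m5 P k i| ≤ 126 ^ (2 * n) * nu (-(k : ℚ)) P

/-- task RM: submultiplicative -/
def S_RM : Prop := ∀ (a : ℚ) (P Q : ℚ[X]), nu a (P * Q) ≤ nu a P * nu a Q

/-- task RC -/
def S_RC : Prop := ∀ (N : ℕ), 100 ≤ N → ∀ n : ℕ, n = 24 * N + 1 → ∀ i < 60 * N, ∀ k ≤ 2 * n,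
  nu (-(k : ℚ)) ((Row n N i).comp (xp n)) ≤ (n : ℚ) ^ (7 * n + 3)

/-- task RB: from RA, RM, RC -/
def S_RHO : Prop := ∀ (N : ℕ), 100 ≤ N → ∀ n : ℕ, n = 24 * N + 1 → ∀ i < 60 * N, ∀ j < 60 * N,
  ∀ c : ℕ, 1 ≤ c → c ≤ 5 → |rho n c (Row n N i * Row n N j)| ≤ (n : ℚ) ^ (40 * n)

/-- task ROW -/
def S_ROW : Prop := ∃ (C : ℝ) (K N0 : ℕ), 0 < C ∧ 100 ≤ N0 ∧ ∀ N : ℕ, N0 ≤ N → ∀ n : ℕ, n = 24 * N + 1 →
  ∃ al : ℕ → ℝ,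
    (∀ j < 28 * N, ∀ y : ℝ,
      wt n N y * ‖aeval (xz n (32 * N) y) (ZZ n (32 * N) * GG n N j)‖ ^ 2 ≤ Real.exp (al j) / 2) ∧
    (∀ j < 28 * N, 1 ≤ al j) ∧
    (∀ y : ℝ, wt n N y * ‖aeval (xz n (32 * N) y) (ZZ n (32 * N) * HH n N)‖ ^ 2 + 1 ≤ C * (n : ℝ) ^ K * BN n N) ∧
    ∑ j ∈ Finset.range (28 * N), al j ≤ 28 * N * (Real.log C + K * Real.log n + n * Phi0 + 128 * N * Real.log n) +
      2 * (28 * N) ^ 2 * Real.log n + 528 * (N : ℝ) ^ 2 * Real.log 2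

/-- task BND (helper256): the determinant inequality for approximate values -/
def S_BND : Prop := ∀ {n N : ℕ} (_ : 100 ≤ N) (_ : n = 24 * N + 1) (u : ℕ → ℚ) (_ : Pe n u)
    (al : ℕ → ℝ) (BH : ℝ) (_ : 1 ≤ BH)
    (_ : ∀ j < 28 * N, ∀ y : ℝ,
        wt n N y * ‖aeval (xz n (32 * N) y) (ZZ n (32 * N) * GG n N j)‖ ^ 2 ≤ Real.exp (al j) / 2)
    (_ : ∀ j < 28 * N, 1 ≤ al j)
    (_ : ∀ y : ℝ, wt n N y * ‖aeval (xz n (32 * N) y) (ZZ n (32 * N) * HH n N)‖ ^ 2 + 1 ≤ BH),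
      |((DET n u (60 * N) : ℚ) : ℝ)| * |((VD n (32 * N) : ℚ) : ℝ)| *
        ((∏ l ∈ Finset.range (32 * N), (HH n N).eval (xh n l) : ℚ) : ℝ) ^ 2 ≤
      ((60 * N).factorial : ℝ) * (∏ l ∈ Finset.range (32 * N), (Dz n N l + 16 * BH)) *
        ∏ j ∈ Finset.range (28 * N), (4 * Real.exp (al j))

/-- task ARCH (helper256) -/
def S_ARCH : Prop := ∀ ε : ℝ, 0 < ε → ∀ᶠ N : ℕ in atTop, ∀ n : ℕ, n = 24 * N + 1 → ∀ u : ℕ → ℚ,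
    Pe n u → DET n u (60 * N) ≠ 0 →
    Real.log |((DET n u (60 * N) : ℚ) : ℝ)| ≤
      25 / 2 * (n : ℝ) ^ 2 * Real.log n + (ZT + 7 / 6 * Phi0 + 1 / 5 + 11 / 12 * Real.log 2 + ε) * (n : ℝ) ^ 2

/-- task NV: non-vanishing, uniform -/
def S_NV : Prop := ∃ p0 : ℕ, ∀ p : ℕ, p0 ≤ p → p.Prime → ∀ (q : ℕ) (u : ℕ → ℚ), UInt q u → ¬ p ∣ q →
    DET p u (5 * ((p - 1) / 2)) ≠ 0

/-- task PRI: a prime `n = 1 mod 24` not dividing `q` -/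
def S_PRI : Prop := ∃ (C : ℕ) (X1 : ℕ), ∀ q : ℕ, 0 < q → ∀ L : ℕ, X1 ≤ L → Real.log q ≤ L →
    ∃ n : ℕ, n.Prime ∧ n % 24 = 1 ∧ ¬ n ∣ q ∧ L ≤ n ∧ n ≤ C * L

/-- task FINR -/
def S_FINR : Prop := ∀ A B : ℝ, 0 < A → 0 < B → ∃ C : ℝ, 0 < C ∧ ∀ x : ℝ, Real.log 2 ≤ x → ∀ n : ℕ, 2 ≤ n →
    (n : ℝ) ≤ A * x + B → 16 * Real.exp (- (C * x * Real.log (1 + x))) ≤ ((n : ℝ) ^ (41 * n))⁻¹

/-- task KEY: from ARCH, NV and the p-adic part (adaptation of `Z_main`) -/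
def S_KEY : Prop := ∃ (A : ℝ) (n0 : ℕ), 0 < A ∧ ∀ (q : ℕ) (u : ℕ → ℚ), UInt q u → ∀ n : ℕ, n0 ≤ n → n.Prime →
    n % 24 = 1 → ¬ n ∣ q → A * Real.log q + A ≤ n → ¬ Pe n u

/-- final statement -/
def S_FIN : Prop := ∃ C : ℝ, 0 < C ∧ ∀ q : ℕ, 2 ≤ q → ∀ a b : ℤ,
    Real.exp (- (C * Real.log q * Real.log (1 + Real.log q))) <
      max |(∑' j : ℕ, (-1 : ℝ) ^ j / (2 * (j : ℝ) + 1) ^ 2) - (a : ℝ) / (q : ℝ)|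
        |(∑' j : ℕ, (-1 : ℝ) ^ j / (2 * (j : ℝ) + 1) ^ 4) - (b : ℝ) / (q : ℝ)|

end

end Pool.Agent.H256R2.BM
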