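import Pool.Agent.H256R2.BM.Defs

/-!
# Simultaneous irrationality measure for `β(2), β(4)`: the final statement from the tasks
(author: helper269)
-/

open Polynomial Pool.Agent.H337R2 Filter Topology Pool.Agent.H216R2.BB

namespace Pool.Agent.H256R2.BM

noncomputable section

theorem t_FIN (hKey : S_KEY) (hP : S_PRI) (hF : S_FINR) : S_FIN := by
  obtain ⟨A, n0, hA, hKey⟩ := hKey
  obtain ⟨C1, X1, hP⟩ := hP
  -- L = ⌈(A+1) x + A⌉₊ + X1 + n0 + 2
  obtain ⟨C, hC, hF⟩ := hF (((C1 : ℝ) + 1) * (A + 1)) (((C1 : ℝ) + 1) * (A + 3 + X1 + n0)) (by positivity) (by positivity)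
  refine ⟨C, hC, fun q hq a b => ?_⟩
  by_contra hcon
  rw [not_lt] at hcon
  set x : ℝ := Real.log q with hx
  have hq0 : 0 < q := by omega
  have hqr : (0 : ℝ) < q := by exact_mod_cast hq0
  have hqq : (q : ℚ) ≠ 0 := by exact_mod_cast hq0.ne'
  have hx2 : Real.log 2 ≤ x := Real.log_le_log (by norm_num) (by exact_mod_cast hq)
  have hx0 : 0 ≤ x := (Real.log_nonneg (by norm_num)).trans hx2
  set L : ℕ := ⌈(A + 1) * x + A⌉₊ + X1 + n0 + 2 with hL
  have hce : (A + 1) * x + A ≤ (⌈(A + 1) * x + A⌉₊ : ℝ) := Nat.le_ceil _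
  have hcl : (⌈(A + 1) * x + A⌉₊ : ℝ) < (A + 1) * x + A + 1 := Nat.ceil_lt_add_one (by positivity)
  have hLr : (L : ℝ) = (⌈(A + 1) * x + A⌉₊ : ℝ) + X1 + n0 + 2 := by rw [hL]; push_cast; ring
  have hX1 : (0 : ℝ) ≤ X1 := Nat.cast_nonneg _
  have hn0 : (0 : ℝ) ≤ n0 := Nat.cast_nonneg _
  have hAx : 0 ≤ A * x := by positivity
  have hLx : x ≤ L := by rw [hLr]; linarith
  obtain ⟨n, hnp, hn24, hnq, hLn, hnC⟩ := hP q hq0 L (by omega) hLx
  have hLn' : (L : ℝ) ≤ n := by exact_mod_cast hLn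
  have hnC' : (n : ℝ) ≤ C1 * L := by exact_mod_cast hnC
  set u : ℕ → ℚ := fun i => if i = 2 then 4 * (a : ℚ) / q else if i = 4 then 16 * (b : ℚ) / q else 0 with hu
  have hUI : UInt q u := by
    refine ⟨hq0, fun i => ?_⟩
    by_cases h2 : i = 2
    · refine ⟨4 * a, ?_⟩
      simp only [hu, h2, if_true]
      push_cast
      field_simp
    · by_cases h4 : i = 4
      · refine ⟨16 * b, ?_⟩
        simp only [hu, h4]
        norm_num
        field_simp
      · refine ⟨0, ?_⟩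
        simp only [hu, if_neg h2, if_neg h4]
        simp
  have hnle : (n : ℝ) ≤ ((C1 : ℝ) + 1) * (A + 1) * x + ((C1 : ℝ) + 1) * (A + 3 + X1 + n0) := by
    have h1 : (L : ℝ) ≤ (A + 1) * x + (A + 3 + X1 + n0) := by rw [hLr]; linarith
    have hC1 : (0 : ℝ) ≤ C1 := Nat.cast_nonneg _
    have h2 : (C1 : ℝ) * L ≤ C1 * ((A + 1) * x + (A + 3 + X1 + n0)) := mul_le_mul_of_nonneg_left h1 hC1
    have h3 : 0 ≤ (A + 1) * x + (A + 3 + X1 + n0) := by positivity
    nlinarith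
  have hbd := hF x hx2 n hnp.two_le hnle
  have hE : 0 < Real.exp (- (C * x * Real.log (1 + x))) := Real.exp_pos _
  refine hKey q u hUI n (by omega) hnp hn24 hnq (by rw [hLr] at hLn'; linarith) ⟨?_, ?_⟩
  · have e : lamB 2 - (u 2 : ℝ) = 4 * ((∑' j : ℕ, (-1 : ℝ) ^ j / (2 * (j : ℝ) + 1) ^ 2) - (a : ℝ) / (q : ℝ)) := by
      rw [lamB_even (le_refl 2)]
      simp only [hu, if_true]
      push_cast
      ring
    rw [e, abs_mul, abs_of_pos (by norm_num : (0 : ℝ) < 4)]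
    have h1 := (le_max_left _ _).trans hcon
    refine le_trans ?_ hbd
    linarith
  · have e : lamB 4 - (u 4 : ℝ) = 16 * ((∑' j : ℕ, (-1 : ℝ) ^ j / (2 * (j : ℝ) + 1) ^ 4) - (b : ℝ) / (q : ℝ)) := by
      rw [lamB_even (by norm_num : 2 ≤ 4)]
      have hu4 : u 4 = 16 * (b : ℚ) / q := by simp [hu]
      rw [hu4]
      push_cast
      ring
    rw [e, abs_mul, abs_of_pos (by norm_num : (0 : ℝ) < 16)]
    have h1 := (le_max_right _ _).trans hcon
    refine le_trans ?_ hbd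
    linarith

end

end Pool.Agent.H256R2.BM
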