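import Pool.Agent.H256R2.BM.Defs

/-! # FINR -/

open Polynomial Pool.Agent.H337R2 Filter Topology Pool.Agent.H216R2.BB

namespace Pool.Agent.H256R2.BM

theorem t_FINR : S_FINR := by
  intro A B hA hB
  have hl2 : 0 < Real.log 2 := Real.log_pos (by norm_num)
  have hl0 : 0 < Real.log (1 + Real.log 2) := Real.log_pos (by linarith)
  have hM : 0 < A + B / Real.log 2 := by positivity
  have hl16 : 0 < Real.log 16 := Real.log_pos (by norm_num)
  refine ⟨41 * (A + B / Real.log 2) *
    (|Real.log (A + B / Real.log 2)| / Real.log (1 + Real.log 2) + 1) +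
    Real.log 16 / (Real.log 2 * Real.log (1 + Real.log 2)), by positivity, ?_⟩
  intro x hx n hn hnx
  generalize hMd : A + B / Real.log 2 = M at *
  generalize hl0d : Real.log (1 + Real.log 2) = l0 at *
  have hx0 : 0 < x := lt_of_lt_of_le hl2 hx
  have hn0 : (0 : ℝ) < n := by
    have : 0 < n := by omega
    exact_mod_cast this
  have hn1 : (1 : ℝ) ≤ n := by
    have : 1 ≤ n := by omega
    exact_mod_cast this
  have h1 : (n : ℝ) ≤ M * x := by
    have h2 : B ≤ B / Real.log 2 * x := by
      rw [div_mul_eq_mul_div, le_div_iff₀ hl2]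
      exact mul_le_mul_of_nonneg_left hx hB.le
    rw [← hMd, add_mul]
    linarith
  have hL : l0 ≤ Real.log (1 + x) := by
    rw [← hl0d]
    exact Real.log_le_log (by linarith) (by linarith)
  have hL0 : 0 < Real.log (1 + x) := lt_of_lt_of_le hl0 hL
  have h2 : Real.log n ≤ (|Real.log M| / l0 + 1) * Real.log (1 + x) := by
    have h3 : Real.log n ≤ Real.log M + Real.log x := by
      rw [← Real.log_mul hM.ne' hx0.ne']
      exact Real.log_le_log hn0 h1
    have h4 : Real.log x ≤ Real.log (1 + x) := Real.log_le_log hx0 (by linarith)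
    have h5 : Real.log M ≤ |Real.log M| / l0 * Real.log (1 + x) := by
      calc Real.log M ≤ |Real.log M| := le_abs_self _
        _ = |Real.log M| / l0 * l0 := by field_simp
        _ ≤ |Real.log M| / l0 * Real.log (1 + x) :=
            mul_le_mul_of_nonneg_left hL (by positivity)
    linarith
  have hlogn : 0 ≤ Real.log n := Real.log_nonneg hn1
  have h6 : 41 * (n : ℝ) * Real.log n ≤
      41 * M * (|Real.log M| / l0 + 1) * (x * Real.log (1 + x)) := by
    calc 41 * (n : ℝ) * Real.log n ≤ 41 * (M * x) * Real.log n := by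
          apply mul_le_mul_of_nonneg_right _ hlogn
          linarith
      _ ≤ 41 * (M * x) * ((|Real.log M| / l0 + 1) * Real.log (1 + x)) :=
          mul_le_mul_of_nonneg_left h2 (by positivity)
      _ = _ := by ring
  have h7 : Real.log 16 ≤ Real.log 16 / (Real.log 2 * l0) * (x * Real.log (1 + x)) := by
    calc Real.log 16 = Real.log 16 / (Real.log 2 * l0) * (Real.log 2 * l0) := by field_simp
      _ ≤ _ := by
          apply mul_le_mul_of_nonneg_left _ (by positivity)
          exact mul_le_mul hx hL hl0.le hx0.le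
  have h8 : ((n : ℝ) ^ (41 * n))⁻¹ = Real.exp (-(41 * (n : ℝ) * Real.log n)) := by
    rw [Real.exp_neg]
    congr 1
    rw [← Real.exp_log (pow_pos hn0 _), Real.log_pow]
    push_cast
    rfl
  have h9 : (16 : ℝ) = Real.exp (Real.log 16) := (Real.exp_log (by norm_num)).symm
  rw [h8]
  calc 16 * Real.exp (-((41 * M * (|Real.log M| / l0 + 1) + Real.log 16 / (Real.log 2 * l0)) * x *
        Real.log (1 + x)))
      = Real.exp (Real.log 16 + -((41 * M * (|Real.log M| / l0 + 1) +
          Real.log 16 / (Real.log 2 * l0)) * x * Real.log (1 + x))) := by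
        rw [Real.exp_add, Real.exp_log (by norm_num)]
    _ ≤ _ := by
        apply Real.exp_le_exp.mpr
        have h10 : (41 * M * (|Real.log M| / l0 + 1) +
          Real.log 16 / (Real.log 2 * l0)) * x * Real.log (1 + x) =
          41 * M * (|Real.log M| / l0 + 1) * (x * Real.log (1 + x)) +
          Real.log 16 / (Real.log 2 * l0) * (x * Real.log (1 + x)) := by ring
        rw [h10]
        linarith

end Pool.Agent.H256R2.BM
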