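import Pool.Agent.H256R2.BM.Defs
import Pool.Agent.H216R2.BB.Z

/-!
# Task KEY (helper66; adaptation of `Z_main` of `H216R2.BB.Z`)
-/

open Polynomial Pool.Agent.H337R2 Filter Topology Pool.Agent.H216R2.BB

namespace Pool.Agent.H256R2.BM

noncomputable section

theorem t_KEY (hArch : S_ARCH) (hNV : S_NV) : S_KEY := by
  obtain ⟨K0, hK0, hE4⟩ := E4_padic
  obtain ⟨p0, hH6⟩ := hNV
  have hF3 : ((∑ K ∈ Finset.Icc (2 : ℕ) 39, LAc K + LU : ℚ) : ℝ) ≤ 16739 / 1000 := by
    have h := (Rat.cast_le (K := ℝ)).2 F3_numeric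
    refine h.trans (le_of_eq ?_)
    norm_num
  have hnum := Z2_num
  -- the eventual inequalities
  have hε : (0 : ℝ) < 1 / 100 := by norm_num
  have ev1 := hArch (1 / 100) hε
  have ev2 := ev_of_tendsto cells_tendsto (1 / 100) hε
  have ev3 := ev_of_tendsto F2_B (1 / 100) hε
  have ev4 := ev_of_tendsto F2_C (1 / 100) hε
  have ev5 := ev_of_tendsto F2_U (1 / 100) hε
  have ev6 := F4_small (1 / 100) hε
  have ev7 := F5_fact
  have ev8 := F6_superfac (1 / 100) hε
  obtain ⟨N1, hN1⟩ := eventually_atTop.1 ev1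
  obtain ⟨N2, hN2⟩ := eventually_atTop.1 (ev2.and (ev3.and (ev4.and (ev5.and (ev6.and (ev7.and ev8))))))
  have hApos : (0 : ℝ) < 250 + 100 * (K0 * (Real.log 4 * 4)) := by
    have hl4 : 0 ≤ Real.log 4 := Real.log_nonneg (by norm_num)
    positivity
  refine ⟨250 + 100 * (K0 * (Real.log 4 * 4)), 24 * N1 + N2 + p0 + 4801, hApos, ?_⟩
  intro q u hu n hngt hnp hnmod hnq hA hPe
  obtain ⟨N, hN⟩ : ∃ N, n = 24 * N + 1 := ⟨n / 24, by omega⟩
  set m : ℕ := 60 * N with hm_def
  have hm : 2 * m + 5 = 5 * n := by omega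
  have hDne : DET n u m ≠ 0 := by
    have h := hH6 n (by omega) hnp q u hu hnq
    have e : 5 * ((n - 1) / 2) = m := by omega
    rwa [e] at h
  have g1 := hN1 N (by omega) n hN u hPe hDne
  obtain ⟨g2, g3, g4, g5, g6, g7', g8'⟩ := hN2 n (by omega)
  have hq0 : 0 < q := hu.1
  have hl4 : 0 ≤ Real.log 4 := Real.log_nonneg (by norm_num)
  have g9 : 5 / 2 * Real.log q + K0 * (Real.log 4 * 4) ≤ 1 / 100 * n := by
    have hlq' : 0 ≤ Real.log q := Real.log_nonneg (by exact_mod_cast hq0)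
    have hc : 0 ≤ K0 * (Real.log 4 * 4) := by positivity
    have hx : 0 ≤ K0 * (Real.log 4 * 4) * Real.log q := mul_nonneg hc hlq'
    nlinarith
  have g7 := g7' m hm
  have g8 := g8' m hm
  have hn8 : 8 ≤ n := by omega
  have hn0 : (0 : ℝ) < n := by exact_mod_cast (by omega : 0 < n)
  set D := DET n u m with hD
  set z : ℚ := (q : ℚ) ^ m * D with hz
  have hqr : (0 : ℝ) < q := by exact_mod_cast hq0
  have hz0 : z ≠ 0 := mul_ne_zero (by positivity) hDne
  set S := (Finset.range (4 * n)).filter Nat.Prime with hS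
  have hpf := Pool.Agent.H336R2.HD.A5_prod_formula z hz0 S (fun p hp => (Finset.mem_filter.1 hp).2) (fun p => Bf n m p K0)
    (fun p hp => by
      rw [hS, Finset.mem_filter, Finset.mem_range] at hp
      exact norm_le_Bf n m p K0 hm hp.2 q u hu (fun h1 h2 => hE4 n m hn8 hm p hp.2 h1 h2 q u hu) (by omega) hp.1)
    (fun p hp hpS => by
      rw [hS, Finset.mem_filter, Finset.mem_range] at hpS
      have h1 : 4 * n ≤ p := by
        by_contra h; exact hpS ⟨by omega, hp⟩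
      have h2 := hE4 n m hn8 hm p hp (by omega) (by nlinarith) q u hu
      rw [if_neg (by omega)] at h2
      have h3 : padicNorm p ((q : ℚ) ^ m * DET n u m) ≤ 1 := by
        exact_mod_cast h2
      exact h3)
  have hprodpos : 0 < ∏ p ∈ S, Bf n m p K0 :=
    Finset.prod_pos fun p hp => Bf_pos n m p K0 (Finset.mem_filter.1 hp).2
  have hzabs : 0 < |(z : ℝ)| := abs_pos.2 (by exact_mod_cast hz0)
  have hlog := Real.log_nonneg hpf
  rw [Real.log_mul hzabs.ne' hprodpos.ne', Real.log_prod (fun p hp => (Bf_pos n m p K0 (Finset.mem_filter.1 hp).2).ne')] at hlog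
  have hzlog : Real.log |(z : ℝ)| = (m : ℝ) * Real.log q + Real.log |((D : ℚ) : ℝ)| := by
    rw [hz]
    push_cast
    rw [abs_mul, Real.log_mul (by positivity) (abs_pos.2 (by exact_mod_cast hDne)).ne', abs_of_pos (by positivity), Real.log_pow]
  have hlq : 0 ≤ Real.log q := Real.log_nonneg (by exact_mod_cast hq0)
  have hmr : (m : ℝ) ≤ 5 / 2 * n := by
    have : ((2 * m + 5 : ℕ) : ℝ) = ((5 * n : ℕ) : ℝ) := by exact_mod_cast hm
    push_cast at this
    linarith
  have hmq : (m : ℝ) * Real.log q ≤ 5 / 2 * n * Real.log q := mul_le_mul_of_nonneg_right hmr hlq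
  -- split of the sum
  rw [← Finset.sum_filter_add_sum_filter_not S (fun p => 20 * p ≤ n)] at hlog
  have hsmall : ∑ p ∈ S.filter (fun p => 20 * p ≤ n), Real.log (Bf n m p K0) ≤
      5 / 2 * (n : ℝ) * (∑ p ∈ (Finset.range (n + 1)).filter (fun p : ℕ => p.Prime ∧ p ^ 2 ≤ 5 * n),
        16 * Real.log (5 * n + 1) +
      ∑ p ∈ (Finset.range (n + 1)).filter (fun p : ℕ => p.Prime ∧ 20 * p ≤ n), 5 * Real.log p) +
      ∑ p ∈ (Finset.range (n + 1)).filter (fun p : ℕ => p.Prime ∧ 20 * p ≤ n), ∑ i ∈ Finset.range m,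
      Real.log ((padicNorm p (((2 * i - 1).factorial : ℕ) : ℚ) ^ 2 : ℚ) : ℝ) := by
    have e1 : S.filter (fun p => 20 * p ≤ n) = (Finset.range (n + 1)).filter (fun p : ℕ => p.Prime ∧ 20 * p ≤ n) := by
      ext p
      rw [hS]
      simp only [Finset.mem_filter, Finset.mem_range]
      constructor
      · rintro ⟨⟨h1, h2⟩, h3⟩; exact ⟨by omega, h2, h3⟩
      · rintro ⟨h1, h2, h3⟩; exact ⟨⟨by omega, h2⟩, h3⟩
    rw [e1]
    calc _ ≤ ∑ p ∈ (Finset.range (n + 1)).filter (fun p : ℕ => p.Prime ∧ 20 * p ≤ n),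
          (5 / 2 * (n : ℝ) * ((if p ^ 2 ≤ 5 * n then 16 * Real.log (5 * n + 1) else 0) + 5 * Real.log p) +
          ∑ i ∈ Finset.range m, Real.log ((padicNorm p (((2 * i - 1).factorial : ℕ) : ℚ) ^ 2 : ℚ) : ℝ)) := by
          apply Finset.sum_le_sum
          intro p hp
          rw [Finset.mem_filter] at hp
          exact log_Bf_small n m p K0 hm hp.2.1 hp.2.2
      _ ≤ _ := by
          rw [Finset.sum_add_distrib, ← Finset.mul_sum, Finset.sum_add_distrib]
          apply add_le_add_left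
          apply mul_le_mul_of_nonneg_left _ (by positivity)
          apply add_le_add_left
          rw [← Finset.sum_filter]
          apply Finset.sum_le_sum_of_subset_of_nonneg
          · intro p hp
            simp only [Finset.mem_filter, Finset.mem_range] at hp ⊢
            exact ⟨hp.1.1, hp.1.2.1, hp.2⟩
          · intro p _ _
            have : 0 ≤ Real.log (5 * (n : ℝ) + 1) := Real.log_nonneg (by linarith)
            positivity
  have hlarge : ∑ p ∈ S.filter (fun p => ¬ 20 * p ≤ n), Real.log (Bf n m p K0) ≤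
      ∑ K ∈ Finset.Icc (2 : ℕ) 39, ∑ p ∈ cell K n, EA n p * Real.log p +
      ∑ p ∈ PS 1 2 n, EB n p * Real.log p + ∑ p ∈ PS 2 4 n, EC n p * Real.log p + K0 * (Real.log 4 * (4 * n)) := by
    refine le_trans (le_of_eq ?_) (Z1_split n (by omega) hnp K0 hK0)
    apply Finset.sum_congr rfl
    intro p hp
    rw [hS, Finset.mem_filter, Finset.mem_filter] at hp
    exact log_Bf_large n m p K0 hp.1.2 hp.2
  have hfin : 5 / 2 * (n : ℝ) * Real.log q + K0 * (Real.log 4 * (4 * n)) ≤ 1 / 100 * (n : ℝ) ^ 2 := by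
    have := mul_le_mul_of_nonneg_right g9 hn0.le
    nlinarith
  have hn2 : (0 : ℝ) < (n : ℝ) ^ 2 := by positivity
  have hcast : (((∑ K ∈ Finset.Icc (2 : ℕ) 39, LAc K : ℚ)) : ℝ) + (LU : ℝ) ≤ 16739 / 1000 := by
    have := hF3
    rw [Rat.cast_add] at this
    exact this
  set LR : ℝ := (((∑ K ∈ Finset.Icc (2 : ℕ) 39, LAc K : ℚ)) : ℝ) with hLR
  have htot : 0 ≤ ((ZT + 7 / 6 * Phi0 + 1 / 5 + 11 / 12 * Real.log 2) - (25 / 2 * Real.log 5 - 75 / 4) + 5 / 8 +
      (LR + (LU : ℝ)) - 11 / 6 + 5 + 8 / 100) * (n : ℝ) ^ 2 := by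
    linarith
  have hneg : ((ZT + 7 / 6 * Phi0 + 1 / 5 + 11 / 12 * Real.log 2) - (25 / 2 * Real.log 5 - 75 / 4) + 5 / 8 +
      (LR + (LU : ℝ)) - 11 / 6 + 5 + 8 / 100) * (n : ℝ) ^ 2 < 0 := by
    apply mul_neg_of_neg_of_pos _ hn2
    linarith
  linarith


end

end Pool.Agent.H256R2.BM
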