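import Pool.Agent.H256R2.BM.Defs
import Pool.Agent.Cov.PNT

/-!
# A prime `n = 1 mod 24` of logarithmic size not dividing `q`
-/

open Filter Topology ArithmeticFunction
open Pool.Agent.Cov.PNT (pnt_residueClass)

namespace Pool.Agent.H256R2.BM

theorem pri_class (k : ℕ) : ((k : ℕ) : ZMod 24) = 1 ↔ k % 24 = 1 := by
  have h := ZMod.natCast_eq_natCast_iff' k 1 24
  rw [Nat.cast_one] at h
  exact h

theorem pri_pt (L k : ℕ) (hk1 : 1 ≤ k) :
    vonMangoldt.residueClass (1 : ZMod 24) k ≤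
      (if L ≤ k ∧ (k.Prime ∧ k % 24 = 1) then Real.log k else 0) +
        (if k ≤ L ∧ k.Prime then Real.log k else 0) +
        (ArithmeticFunction.vonMangoldt k - if k.Prime then Real.log k else 0) := by
  have hlog : 0 ≤ Real.log k := Real.log_nonneg (by exact_mod_cast hk1)
  by_cases hp : k.Prime
  · have hΛ : ArithmeticFunction.vonMangoldt k = Real.log k := vonMangoldt_apply_prime hp
    by_cases hm : k % 24 = 1
    · have hR : vonMangoldt.residueClass (1 : ZMod 24) k = ArithmeticFunction.vonMangoldt k := by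
        rw [vonMangoldt.residueClass, Set.indicator_of_mem]
        exact (pri_class k).2 hm
      rw [hR, hΛ, if_pos hp, sub_self, add_zero]
      rcases le_total L k with h | h
      · rw [if_pos ⟨h, hp, hm⟩]
        split_ifs <;> linarith
      · rw [if_pos (show k ≤ L ∧ k.Prime from ⟨h, hp⟩)]
        split_ifs <;> linarith
    · have hR : vonMangoldt.residueClass (1 : ZMod 24) k = 0 := by
        rw [vonMangoldt.residueClass, Set.indicator_of_notMem]
        exact fun h' => hm ((pri_class k).1 h')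
      rw [hR, hΛ, if_pos hp, sub_self, add_zero]
      split_ifs <;> linarith
  · have h0 : 0 ≤ ArithmeticFunction.vonMangoldt k := vonMangoldt_nonneg
    have hR : vonMangoldt.residueClass (1 : ZMod 24) k ≤ ArithmeticFunction.vonMangoldt k := by
      rw [vonMangoldt.residueClass]
      exact Set.indicator_le_self' (fun _ _ => vonMangoldt_nonneg) k
    rw [if_neg (fun h => hp h.2.1), if_neg (fun h => hp h.2), if_neg hp]
    linarith

theorem pri_sum (n L : ℕ) :
    ∑ k ∈ Finset.Icc 1 n, vonMangoldt.residueClass (1 : ZMod 24) k ≤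
      ∑ k ∈ (Finset.Icc L n).filter (fun k => k.Prime ∧ k % 24 = 1), Real.log k
       + Chebyshev.theta L + (Chebyshev.psi n - Chebyshev.theta n) := by
  have h1 : ∑ k ∈ Finset.Icc 1 n, vonMangoldt.residueClass (1 : ZMod 24) k ≤
      ∑ k ∈ Finset.Icc 1 n, ((if L ≤ k ∧ (k.Prime ∧ k % 24 = 1) then Real.log k else 0) +
        (if k ≤ L ∧ k.Prime then Real.log k else 0) +
        (ArithmeticFunction.vonMangoldt k - if k.Prime then Real.log k else 0)) :=
    Finset.sum_le_sum fun k hk => pri_pt L k (Finset.mem_Icc.1 hk).1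
  rw [Finset.sum_add_distrib, Finset.sum_add_distrib, Finset.sum_sub_distrib] at h1
  have hIcc : Finset.Icc 1 n = Finset.Ioc 0 n := by
    ext k; simp only [Finset.mem_Icc, Finset.mem_Ioc]; omega
  have h2 : ∑ k ∈ Finset.Icc 1 n, (if L ≤ k ∧ (k.Prime ∧ k % 24 = 1) then Real.log k else 0) ≤
      ∑ k ∈ (Finset.Icc L n).filter (fun k => k.Prime ∧ k % 24 = 1), Real.log k := by
    rw [← Finset.sum_filter]
    refine Finset.sum_le_sum_of_subset_of_nonneg ?_ ?_
    · intro k hk
      simp only [Finset.mem_filter, Finset.mem_Icc] at hk ⊢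
      exact ⟨⟨hk.2.1, hk.1.2⟩, hk.2.2⟩
    · intro k hk _
      simp only [Finset.mem_filter, Finset.mem_Icc] at hk
      exact Real.log_nonneg (by exact_mod_cast hk.2.1.one_lt.le)
  have h3 : ∑ k ∈ Finset.Icc 1 n, (if k ≤ L ∧ k.Prime then Real.log k else 0) ≤
      Chebyshev.theta L := by
    rw [← Finset.sum_filter, Chebyshev.theta, Nat.floor_natCast]
    refine Finset.sum_le_sum_of_subset_of_nonneg ?_ ?_
    · intro k hk
      simp only [Finset.mem_filter, Finset.mem_Icc, Finset.mem_Ioc] at hk ⊢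
      exact ⟨⟨hk.1.1, hk.2.1⟩, hk.2.2⟩
    · intro k hk _
      simp only [Finset.mem_filter, Finset.mem_Ioc] at hk
      exact Real.log_nonneg (by exact_mod_cast hk.2.one_lt.le)
  have h4 : ∑ k ∈ Finset.Icc 1 n, ArithmeticFunction.vonMangoldt k = Chebyshev.psi n := by
    rw [Chebyshev.psi, Nat.floor_natCast, hIcc]
  have h5 : ∑ k ∈ Finset.Icc 1 n, (if k.Prime then Real.log k else 0) = Chebyshev.theta n := by
    rw [Chebyshev.theta, Nat.floor_natCast, hIcc, Finset.sum_filter]
  rw [h4, h5] at h1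
  linarith

theorem pri_psi_theta :
    Tendsto (fun x : ℝ => (Chebyshev.psi x - Chebyshev.theta x) / x) atTop (𝓝 0) := by
  obtain ⟨C, hC⟩ := Chebyshev.psi_sub_theta_le_mul_sqrt
  have h2 : Tendsto (fun x : ℝ => C * (Real.sqrt x)⁻¹) atTop (𝓝 0) := by
    have := (tendsto_inv_atTop_zero.comp Real.tendsto_sqrt_atTop).const_mul C
    simpa [Function.comp_def] using this
  refine squeeze_zero' ?_ ?_ h2
  · filter_upwards [eventually_gt_atTop 0] with x hx
    exact div_nonneg (sub_nonneg.mpr (Chebyshev.theta_le_psi x)) hx.le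
  · filter_upwards [eventually_gt_atTop 0] with x hx
    rw [div_le_iff₀ hx]
    refine (hC x).trans (le_of_eq ?_)
    have hs : 0 < Real.sqrt x := Real.sqrt_pos.mpr hx
    have hx2 : Real.sqrt x * Real.sqrt x = x := Real.mul_self_sqrt hx.le
    field_simp
    rw [sq, hx2]

theorem pri_big : ∃ X1 : ℕ, ∀ L : ℕ, X1 ≤ L →
    (L : ℝ) < ∑ k ∈ (Finset.Icc L (36 * L)).filter (fun k => k.Prime ∧ k % 24 = 1),
      Real.log k := by
  have hnat : Tendsto (fun L : ℕ => ((36 * L : ℕ) : ℝ)) atTop atTop :=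
    tendsto_natCast_atTop_atTop.comp (tendsto_id.const_mul_atTop' (by norm_num))
  have hq : ((Nat.totient 24 : ℕ) : ℝ)⁻¹ = 8⁻¹ := by
    have : Nat.totient 24 = 8 := by decide
    rw [this]; norm_num
  have h1 := (pnt_residueClass (q := 24) (a := 1) isUnit_one).comp hnat
  rw [hq] at h1
  have h2 := h1.eventually (lt_mem_nhds (show (9 : ℝ)⁻¹ < 8⁻¹ by norm_num))
  have h3 := (pri_psi_theta.comp hnat).eventually (gt_mem_nhds (show (0 : ℝ) < 36⁻¹ by norm_num))
  obtain ⟨X1, hX⟩ := eventually_atTop.1 (h2.and (h3.and (eventually_ge_atTop 1)))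
  refine ⟨X1, fun L hL => ?_⟩
  obtain ⟨a1, a2, a3⟩ := hX L hL
  simp only [Function.comp, Nat.floor_natCast] at a1 a2
  have hL0 : (0 : ℝ) < L := by exact_mod_cast a3
  have hn0 : (0 : ℝ) < ((36 * L : ℕ) : ℝ) := by push_cast; linarith
  rw [lt_div_iff₀ hn0] at a1
  rw [div_lt_iff₀ hn0] at a2
  have h4 := pri_sum (36 * L) L
  have h5 : Chebyshev.theta (L : ℝ) ≤ Real.log 4 * L := Chebyshev.theta_le_log4_mul_x hL0.le
  have h6 : Real.log 4 ≤ 1.4 := by
    have : (4 : ℝ) = 2 ^ 2 := by norm_num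
    rw [this, Real.log_pow]
    have := Real.log_two_lt_d9
    push_cast
    linarith
  have h7 : Real.log 4 * L ≤ 1.4 * L := mul_le_mul_of_nonneg_right h6 hL0.le
  have h8 : (9 : ℝ)⁻¹ * ((36 * L : ℕ) : ℝ) = 4 * L := by push_cast; ring
  have h9 : (36 : ℝ)⁻¹ * ((36 * L : ℕ) : ℝ) = L := by push_cast; ring
  rw [h8] at a1
  rw [h9] at a2
  linarith

theorem t_PRI : S_PRI := by
  obtain ⟨X1, hX⟩ := pri_big
  refine ⟨36, X1, fun q hq L hL hlog => ?_⟩
  by_contra hcon
  push Not at hcon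
  have hall : ∀ n ∈ (Finset.Icc L (36 * L)).filter (fun k => k.Prime ∧ k % 24 = 1), n ∣ q := by
    intro n hn
    simp only [Finset.mem_filter, Finset.mem_Icc] at hn
    by_contra hnd
    exact absurd hn.1.2 (not_le.2 (hcon n hn.2.1 hn.2.2 hnd hn.1.1))
  have hdvd : ∏ n ∈ (Finset.Icc L (36 * L)).filter (fun k => k.Prime ∧ k % 24 = 1), n ∣ q :=
    Finset.prod_primes_dvd q (fun n hn => (Finset.mem_filter.1 hn).2.1.prime) hall
  have hle := Nat.le_of_dvd hq hdvd
  have hlt := hX L hL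
  have hpos : ∀ n ∈ (Finset.Icc L (36 * L)).filter (fun k => k.Prime ∧ k % 24 = 1),
      ((n : ℕ) : ℝ) ≠ 0 := fun n hn => by
    exact_mod_cast (Finset.mem_filter.1 hn).2.1.ne_zero
  rw [← Real.log_prod hpos] at hlt
  have h1 : Real.log (∏ n ∈ (Finset.Icc L (36 * L)).filter (fun k => k.Prime ∧ k % 24 = 1),
      ((n : ℕ) : ℝ)) ≤ Real.log q := by
    refine Real.log_le_log ?_ ?_
    · exact Finset.prod_pos fun n hn => by exact_mod_cast (Finset.mem_filter.1 hn).2.1.pos
    · rw [← Nat.cast_prod]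
      exact Nat.cast_le.2 hle
  linarith

end Pool.Agent.H256R2.BM
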