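import Pool.Agent.H256R2.BM.Defs

/-!
# Task RA (helper880): bound for the partial fraction coefficients
-/

set_option autoImplicit false

open Polynomial Pool.Agent.H337R2 Filter Topology Pool.Agent.H216R2.BB

namespace Pool.Agent.H256R2.BM

/-- sum of the absolute values of the first five coefficients -/
private noncomputable def RA_N (F : PowerSeries ℚ) : ℚ := ∑ d ∈ Finset.range 5, |PowerSeries.coeff d F|

private theorem RA_N_nonneg (F : PowerSeries ℚ) : 0 ≤ RA_N F :=
  Finset.sum_nonneg fun _ _ => abs_nonneg _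

private theorem RA_coeff (F G : PowerSeries ℚ) (d : ℕ) : |PowerSeries.coeff d (F * G)| ≤
    ∑ k ∈ Finset.range (d + 1), |PowerSeries.coeff k F| * |PowerSeries.coeff (d - k) G| := by
  rw [PowerSeries.coeff_mul, Finset.Nat.sum_antidiagonal_eq_sum_range_succ
    (fun i j => PowerSeries.coeff i F * PowerSeries.coeff j G) d]
  refine (Finset.abs_sum_le_sum_abs _ _).trans (le_of_eq ?_)
  exact Finset.sum_congr rfl fun k _ => abs_mul _ _

private theorem RA_mul (F G : PowerSeries ℚ) : RA_N (F * G) ≤ RA_N F * RA_N G := by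
  have h0 := RA_coeff F G 0
  have h1 := RA_coeff F G 1
  have h2 := RA_coeff F G 2
  have h3 := RA_coeff F G 3
  have h4 := RA_coeff F G 4
  simp only [Finset.sum_range_succ, Finset.sum_range_zero, zero_add, Nat.sub_zero, Nat.reduceSub,
    Nat.sub_self] at h0 h1 h2 h3 h4
  unfold RA_N
  simp only [Finset.sum_range_succ, Finset.sum_range_zero, zero_add]
  have p14 := mul_nonneg (abs_nonneg (PowerSeries.coeff 1 F)) (abs_nonneg (PowerSeries.coeff 4 G))
  have p23 := mul_nonneg (abs_nonneg (PowerSeries.coeff 2 F)) (abs_nonneg (PowerSeries.coeff 3 G))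
  have p24 := mul_nonneg (abs_nonneg (PowerSeries.coeff 2 F)) (abs_nonneg (PowerSeries.coeff 4 G))
  have p32 := mul_nonneg (abs_nonneg (PowerSeries.coeff 3 F)) (abs_nonneg (PowerSeries.coeff 2 G))
  have p33 := mul_nonneg (abs_nonneg (PowerSeries.coeff 3 F)) (abs_nonneg (PowerSeries.coeff 3 G))
  have p34 := mul_nonneg (abs_nonneg (PowerSeries.coeff 3 F)) (abs_nonneg (PowerSeries.coeff 4 G))
  have p41 := mul_nonneg (abs_nonneg (PowerSeries.coeff 4 F)) (abs_nonneg (PowerSeries.coeff 1 G))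
  have p42 := mul_nonneg (abs_nonneg (PowerSeries.coeff 4 F)) (abs_nonneg (PowerSeries.coeff 2 G))
  have p43 := mul_nonneg (abs_nonneg (PowerSeries.coeff 4 F)) (abs_nonneg (PowerSeries.coeff 3 G))
  have p44 := mul_nonneg (abs_nonneg (PowerSeries.coeff 4 F)) (abs_nonneg (PowerSeries.coeff 4 G))
  linarith

private theorem RA_one : RA_N 1 = 1 := by
  unfold RA_N
  simp only [Finset.sum_range_succ, Finset.sum_range_zero, zero_add, PowerSeries.coeff_one]
  norm_num

private theorem RA_iv {a : ℚ} (ha : 1 ≤ |a|) : RA_N (iv a ^ 5) ≤ 126 := by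
  have ha0 : a ≠ 0 := by
    rintro rfl
    norm_num at ha
  have key : ∀ d : ℕ, |PowerSeries.coeff d (iv a ^ 5)| ≤ (Nat.choose (4 + d) 4 : ℚ) := by
    intro d
    rw [show (5 : ℕ) = 4 + 1 from rfl, coeff_iv_pow ha0, abs_div, abs_mul, abs_pow, abs_neg,
      abs_one, one_pow, one_mul, Nat.abs_cast, abs_pow]
    exact div_le_self (Nat.cast_nonneg _) (one_le_pow₀ ha)
  unfold RA_N
  simp only [Finset.sum_range_succ, Finset.sum_range_zero, zero_add]
  have h0 : |PowerSeries.coeff 0 (iv a ^ 5)| ≤ 1 := (key 0).trans (by norm_num [Nat.choose])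
  have h1 : |PowerSeries.coeff 1 (iv a ^ 5)| ≤ 5 := (key 1).trans (by norm_num [Nat.choose])
  have h2 : |PowerSeries.coeff 2 (iv a ^ 5)| ≤ 15 := (key 2).trans (by norm_num [Nat.choose])
  have h3 : |PowerSeries.coeff 3 (iv a ^ 5)| ≤ 35 := (key 3).trans (by norm_num [Nat.choose])
  have h4 : |PowerSeries.coeff 4 (iv a ^ 5)| ≤ 70 := (key 4).trans (by norm_num [Nat.choose])
  linarith

private theorem RA_prod (c : ℚ) (s : Finset ℕ) (hs : ∀ m ∈ s, 1 ≤ |c + m|) :
    RA_N (VV s m5 c) ≤ 126 ^ s.card := by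
  classical
  unfold VV
  induction s using Finset.induction_on with
  | empty =>
    rw [Finset.prod_empty, Finset.card_empty, pow_zero, RA_one]
  | insert m s hm ih =>
    rw [Finset.prod_insert hm, Finset.card_insert_of_notMem hm, pow_succ']
    refine (RA_mul _ _).trans ?_
    refine mul_le_mul ?_ (ih fun m' hm' => hs m' (Finset.mem_insert_of_mem hm'))
      (RA_N_nonneg _) (by norm_num)
    exact RA_iv (hs m (Finset.mem_insert_self _ _))

theorem t_RA : S_RA := by
  intro n hn P k i hk hi1 hi5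
  have h5 : m5 k = 5 := rfl
  unfold pa
  rw [h5, if_pos hi5]
  unfold pfc
  have hlt : 5 - i ∈ Finset.range 5 := Finset.mem_range.2 (by omega)
  have h1 : ∀ F : PowerSeries ℚ, |PowerSeries.coeff (5 - i) F| ≤ RA_N F := fun F =>
    Finset.single_le_sum (f := fun d => |PowerSeries.coeff d F|)
      (fun _ _ => abs_nonneg _) hlt
  refine (h1 _).trans ((RA_mul _ _).trans ?_)
  have h2 : RA_N (TS (-(k : ℚ)) P) = nu (-(k : ℚ)) P := rfl
  have hcard : ((sB n).erase k).card = 2 * n := by
    rw [Finset.card_erase_of_mem hk]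
    unfold sB
    rw [Finset.card_range]
    rfl
  have h3 : RA_N (VV ((sB n).erase k) m5 (-(k : ℚ))) ≤ 126 ^ (2 * n) := by
    rw [← hcard]
    apply RA_prod
    intro m hm
    have hmk : m ≠ k := Finset.ne_of_mem_erase hm
    have h4 : (1 : ℤ) ≤ |-(k : ℤ) + m| := Int.one_le_abs (by omega)
    have h6 : ((1 : ℤ) : ℚ) ≤ ((|-(k : ℤ) + m| : ℤ) : ℚ) := by exact_mod_cast h4
    push_cast at h6
    exact h6
  rw [h2, mul_comm]
  exact mul_le_mul_of_nonneg_right h3 (RA_N_nonneg _)

end Pool.Agent.H256R2.BM
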