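import Pool.Agent.H256R2.BM.Defs

open Polynomial Pool.Agent.H337R2 Filter Topology Pool.Agent.H216R2.BB

namespace Pool.Agent.H256R2.BM

namespace RCp

noncomputable section

lemma nu_nonneg (a : ℚ) (P : ℚ[X]) : 0 ≤ nu a P := Finset.sum_nonneg fun _ _ => abs_nonneg _

lemma nu_add (a : ℚ) (P Q : ℚ[X]) : nu a (P + Q) ≤ nu a P + nu a Q := by
  unfold nu
  rw [← Finset.sum_add_distrib]
  apply Finset.sum_le_sum
  intro d _
  rw [map_add, map_add]
  exact abs_add_le _ _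

lemma nu_neg (a : ℚ) (P : ℚ[X]) : nu a (-P) = nu a P := by
  unfold nu
  apply Finset.sum_congr rfl
  intro d _
  rw [map_neg, map_neg, abs_neg]

lemma nu_C (a c : ℚ) : nu a (C c) = |c| := by
  unfold nu
  simp [Finset.sum_range_succ, TS_C, PowerSeries.coeff_C]

lemma nu_one (a : ℚ) : nu a 1 = 1 := by
  have := nu_C a 1
  rwa [map_one, abs_one] at this

/-- `nu` after composition -/
def f (n : ℕ) (k : ℕ) (F : ℚ[X]) : ℚ := nu (-(k : ℚ)) (F.comp (xp n))

lemma f_nonneg (n k : ℕ) (F : ℚ[X]) : 0 ≤ f n k F := nu_nonneg _ _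

lemma f_add (n k : ℕ) (F G : ℚ[X]) : f n k (F + G) ≤ f n k F + f n k G := by
  unfold f; rw [add_comp]; exact nu_add _ _ _

lemma f_sub (n k : ℕ) (F G : ℚ[X]) : f n k (F - G) ≤ f n k F + f n k G := by
  rw [sub_eq_add_neg]
  refine (f_add _ _ _ _).trans (le_of_eq ?_)
  unfold f
  rw [neg_comp, nu_neg]

lemma f_C (n k : ℕ) (c : ℚ) : f n k (C c) = |c| := by
  unfold f; rw [C_comp, nu_C]

lemma f_one (n k : ℕ) : f n k 1 = 1 := by
  unfold f; rw [one_comp, nu_one]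

lemma f_mul (hM : S_RM) (n k : ℕ) (F G : ℚ[X]) : f n k (F * G) ≤ f n k F * f n k G := by
  unfold f; rw [mul_comp]; exact hM _ _ _

lemma f_X {n k : ℕ} (hk : k ≤ 2 * n) : f n k X ≤ (n : ℚ) ^ 2 + 2 * n + 1 := by
  unfold f nu
  rw [X_comp]
  have h : TS (-(k : ℚ)) (xp n) = PowerSeries.X * PowerSeries.X +
      PowerSeries.C (2 * n - 2 * k : ℚ) * PowerSeries.X + PowerSeries.C (-(k : ℚ) * (2 * n - k)) := by
    unfold xp
    rw [map_mul, TS_lin, TS_X]
    have e1 : (PowerSeries.C (2 * n - 2 * k : ℚ) : PowerSeries ℚ) =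
        PowerSeries.C (-(k : ℚ)) + PowerSeries.C (-(k : ℚ) + ((2 * n : ℕ) : ℚ)) := by
      rw [← map_add]; congr 1; push_cast; ring
    have e2 : (PowerSeries.C (-(k : ℚ) * (2 * n - k)) : PowerSeries ℚ) =
        PowerSeries.C (-(k : ℚ)) * PowerSeries.C (-(k : ℚ) + ((2 * n : ℕ) : ℚ)) := by
      rw [← map_mul]; congr 1; push_cast; ring
    rw [e1, e2]
    ring
  rw [h]
  have hk' : (k : ℚ) ≤ 2 * n := by exact_mod_cast hk
  have hk0 : (0 : ℚ) ≤ k := by positivity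
  have hn0 : (0 : ℚ) ≤ n := by positivity
  have c0 : PowerSeries.coeff 0 (PowerSeries.X * PowerSeries.X +
      PowerSeries.C (2 * n - 2 * k : ℚ) * PowerSeries.X + PowerSeries.C (-(k : ℚ) * (2 * n - k)) :
      PowerSeries ℚ) = -(k : ℚ) * (2 * n - k) := by
    simp
  have c1 : PowerSeries.coeff 1 (PowerSeries.X * PowerSeries.X +
      PowerSeries.C (2 * n - 2 * k : ℚ) * PowerSeries.X + PowerSeries.C (-(k : ℚ) * (2 * n - k)) :
      PowerSeries ℚ) = 2 * n - 2 * k := by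
    rw [← pow_two, map_add, map_add, PowerSeries.coeff_X_pow, PowerSeries.coeff_C_mul,
      PowerSeries.coeff_X, PowerSeries.coeff_C]
    simp
  have cg : ∀ d, 2 ≤ d → PowerSeries.coeff d (PowerSeries.X * PowerSeries.X +
      PowerSeries.C (2 * n - 2 * k : ℚ) * PowerSeries.X + PowerSeries.C (-(k : ℚ) * (2 * n - k)) :
      PowerSeries ℚ) = if d = 2 then 1 else 0 := by
    intro d hd
    rw [← pow_two, map_add, map_add, PowerSeries.coeff_X_pow, PowerSeries.coeff_C_mul,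
      PowerSeries.coeff_X, PowerSeries.coeff_C, if_neg (by omega : ¬ d = 1),
      if_neg (by omega : ¬ d = 0)]
    simp
  rw [Finset.sum_range_succ, Finset.sum_range_succ, Finset.sum_range_succ, Finset.sum_range_succ,
    Finset.sum_range_one, c0, c1, cg 2 le_rfl, cg 3 (by norm_num), cg 4 (by norm_num)]
  simp only [if_true]
  norm_num
  have h1 : |(k : ℚ) * (2 * n - k)| ≤ (n : ℚ) ^ 2 := by
    rw [abs_of_nonneg (mul_nonneg hk0 (by linarith))]
    nlinarith [sq_nonneg ((n : ℚ) - k)]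
  have h2 : |2 * (n : ℚ) - 2 * k| ≤ 2 * n := by
    rw [abs_le]; constructor <;> linarith
  have h3 : (k : ℚ) * |2 * (n : ℚ) - k| ≤ (n : ℚ) ^ 2 := by
    rw [abs_mul, abs_of_nonneg hk0] at h1
    exact h1
  linarith

lemma f_prod (hM : S_RM) (n k : ℕ) {ι : Type} [DecidableEq ι] (s : Finset ι) (F : ι → ℚ[X]) :
    f n k (∏ i ∈ s, F i) ≤ ∏ i ∈ s, f n k (F i) := by
  induction s using Finset.induction_on with
  | empty => simp [f_one]
  | insert i s hi ih =>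
    rw [Finset.prod_insert hi, Finset.prod_insert hi]
    exact (f_mul hM n k _ _).trans (mul_le_mul_of_nonneg_left ih (f_nonneg _ _ _))

lemma f_pow (hM : S_RM) (n k : ℕ) (F : ℚ[X]) (m : ℕ) : f n k (F ^ m) ≤ f n k F ^ m := by
  induction m with
  | zero => simp [f_one]
  | succ m ih =>
    rw [pow_succ, pow_succ]
    exact (f_mul hM n k _ _).trans (mul_le_mul_of_nonneg_right ih (f_nonneg _ _ _))

end

end RCp

open RCp

theorem t_RC (hM : S_RM) : S_RC := by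
  intro N hN n hn i hi k hk
  have hn1 : (1 : ℚ) ≤ n := by
    have : 1 ≤ n := by omega
    exact_mod_cast this
  have hnN : (n : ℚ) = 24 * N + 1 := by rw [hn]; push_cast; ring
  have hN100 : (100 : ℚ) ≤ N := by exact_mod_cast hN
  have hn24 : (2401 : ℚ) ≤ n := by rw [hnN]; linarith
  have hX := f_X (n := n) (k := k) hk
  -- linear factors
  have h1 : ∀ l < 32 * N, f n k (X - C (xh n l)) ≤ (n : ℚ) ^ 3 := by
    intro l hl
    refine (f_sub _ _ _ _).trans ?_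
    rw [f_C]
    have hl' : (l : ℚ) + 1 ≤ 32 * N := by exact_mod_cast hl
    have hl0 : (0 : ℚ) ≤ l := by positivity
    have e1 : |xh n l| ≤ 5 * (n : ℚ) ^ 2 := by
      unfold xh
      rw [abs_of_nonneg (by positivity)]
      have a1 : (l : ℚ) + 1 / 2 ≤ 4 / 3 * n := by rw [hnN]; linarith
      have a2 : (l : ℚ) + 1 / 2 + 2 * n ≤ 10 / 3 * n := by linarith
      calc ((l : ℚ) + 1 / 2) * ((l : ℚ) + 1 / 2 + 2 * n) ≤ (4 / 3 * n) * (10 / 3 * n) :=
            mul_le_mul a1 a2 (by positivity) (by positivity)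
        _ ≤ 5 * (n : ℚ) ^ 2 := by nlinarith [sq_nonneg (n : ℚ)]
    have e2 : (n : ℚ) ^ 3 = n * n ^ 2 := by ring
    nlinarith [mul_le_mul_of_nonneg_right hn24 (sq_nonneg (n : ℚ))]
  have hLin : f n k (G7a.Lin n) ≤ 3 * (n : ℚ) ^ 2 := by
    unfold G7a.Lin
    refine (f_add _ _ _ _).trans ?_
    rw [f_C, abs_of_nonneg (by positivity)]
    nlinarith
  have hLin3 : f n k (G7a.Lin n) ≤ (n : ℚ) ^ 3 := by
    refine hLin.trans ?_
    have e2 : (n : ℚ) ^ 3 = n * n ^ 2 := by ring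
    rw [e2]
    exact mul_le_mul_of_nonneg_right (by linarith) (sq_nonneg _)
  have hg : ∀ b, |2 * (g1 b ^ 2 - g2 b ^ 2)| ≤ 12 ∧ |(g1 b ^ 2 + g2 b ^ 2) ^ 2| ≤ 50 := by
    intro b
    match b with
    | 0 => simp only [g1, g2]; constructor <;> (rw [abs_le]; constructor <;> norm_num)
    | 1 => simp only [g1, g2]; constructor <;> (rw [abs_le]; constructor <;> norm_num)
    | 2 => simp only [g1, g2]; constructor <;> (rw [abs_le]; constructor <;> norm_num)
    | (b + 3) => simp only [g1, g2]; constructor <;> (rw [abs_le]; constructor <;> norm_num)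
  have hQB : ∀ b, f n k (qb n (g1 b) (g2 b)) ≤ (n : ℚ) ^ 5 := by
    intro b
    obtain ⟨hg1, hg2⟩ := hg b
    have e0 : qb n (g1 b) (g2 b) = G7a.Lin n ^ 2 - C (2 * (g1 b ^ 2 - g2 b ^ 2) * (n : ℚ) ^ 2) *
        G7a.Lin n + C ((g1 b ^ 2 + g2 b ^ 2) ^ 2 * (n : ℚ) ^ 4) := rfl
    rw [e0]
    refine (f_add _ _ _ _).trans ?_
    have a1 := f_sub n k (G7a.Lin n ^ 2) (C (2 * (g1 b ^ 2 - g2 b ^ 2) * (n : ℚ) ^ 2) * G7a.Lin n)
    have a2 := f_pow hM n k (G7a.Lin n) 2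
    have a3 := f_mul hM n k (C (2 * (g1 b ^ 2 - g2 b ^ 2) * (n : ℚ) ^ 2)) (G7a.Lin n)
    rw [f_C] at a3
    rw [f_C]
    have hL0 := f_nonneg n k (G7a.Lin n)
    have b1 : f n k (G7a.Lin n) ^ 2 ≤ (3 * (n : ℚ) ^ 2) ^ 2 := pow_le_pow_left₀ hL0 hLin 2
    have b2 : |2 * (g1 b ^ 2 - g2 b ^ 2) * (n : ℚ) ^ 2| ≤ 12 * (n : ℚ) ^ 2 := by
      rw [abs_mul, abs_of_nonneg (sq_nonneg (n : ℚ))]
      exact mul_le_mul_of_nonneg_right hg1 (sq_nonneg _)
    have b3 : |(g1 b ^ 2 + g2 b ^ 2) ^ 2 * (n : ℚ) ^ 4| ≤ 50 * (n : ℚ) ^ 4 := by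
      rw [abs_mul, abs_of_nonneg (by positivity : (0 : ℚ) ≤ (n : ℚ) ^ 4)]
      exact mul_le_mul_of_nonneg_right hg2 (by positivity)
    have b4 : |2 * (g1 b ^ 2 - g2 b ^ 2) * (n : ℚ) ^ 2| * f n k (G7a.Lin n) ≤
        12 * (n : ℚ) ^ 2 * (3 * (n : ℚ) ^ 2) :=
      mul_le_mul b2 hLin hL0 (by positivity)
    have b5 : 95 * (n : ℚ) ^ 4 ≤ (n : ℚ) ^ 5 := by
      have : (n : ℚ) ^ 5 = n * n ^ 4 := by ring
      rw [this]
      exact mul_le_mul_of_nonneg_right (by linarith) (by positivity)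
    have b6 : (3 * (n : ℚ) ^ 2) ^ 2 = 9 * (n : ℚ) ^ 4 := by ring
    have b7 : 12 * (n : ℚ) ^ 2 * (3 * (n : ℚ) ^ 2) = 36 * (n : ℚ) ^ 4 := by ring
    linarith
  have hn3 : (1 : ℚ) ≤ (n : ℚ) ^ 3 := one_le_pow₀ hn1
  have hn5 : (1 : ℚ) ≤ (n : ℚ) ^ 5 := one_le_pow₀ hn1
  have hn0 : (0 : ℚ) ≤ n := by linarith
  -- products of linear factors
  have hprodlin : ∀ s : Finset ℕ, s ⊆ Finset.range (32 * N) →
      f n k (∏ l ∈ s, (X - C (xh n l))) ≤ (n : ℚ) ^ (96 * N) := by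
    intro s hs
    refine (f_prod hM n k s _).trans ?_
    refine (Finset.prod_le_prod (fun l _ => f_nonneg _ _ _)
      (fun l hl => h1 l (Finset.mem_range.1 (hs hl)))).trans ?_
    rw [Finset.prod_const, ← pow_mul]
    apply pow_le_pow_right₀ hn1
    have := Finset.card_le_card hs
    rw [Finset.card_range] at this
    omega
  have hpq : ∀ b m, f n k (qb n (g1 b) (g2 b) ^ m) ≤ (n : ℚ) ^ (5 * m) := by
    intro b m
    refine (f_pow hM n k _ m).trans ?_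
    rw [pow_mul]
    exact pow_le_pow_left₀ (f_nonneg _ _ _) (hQB b) m
  have hprodq : ∀ b : ℕ, f n k (∏ i ∈ Finset.range b, qb n (g1 i) (g2 i) ^ (sg i * N)) ≤
      (n : ℚ) ^ (5 * (G7a.ho b * N)) := by
    intro b
    refine (f_prod hM n k _ _).trans ?_
    refine (Finset.prod_le_prod (fun l _ => f_nonneg _ _ _) (fun l _ => hpq l _)).trans ?_
    rw [Finset.prod_pow_eq_pow_sum]
    apply le_of_eq
    congr 1
    unfold G7a.ho
    rw [Finset.sum_mul, Finset.mul_sum]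
  show f n k (Row n N i) ≤ _
  unfold Row G7b.Pr
  split_ifs with hi2
  · refine (f_mul hM n k _ _).trans ?_
    have a1 : f n k (ZE n (32 * N) i) ≤ (n : ℚ) ^ (96 * N) := hprodlin _ (Finset.erase_subset _ _)
    have a2 : f n k (HH n N) ≤ (n : ℚ) ^ (5 * (G7a.ho 4 * N)) := hprodq 4
    have h4 : G7a.ho 4 = 14 := by decide
    rw [h4] at a2
    refine (mul_le_mul a1 a2 (f_nonneg _ _ _) (by positivity)).trans ?_
    rw [← pow_add]
    apply pow_le_pow_right₀ hn1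
    omega
  · refine (f_mul hM n k _ _).trans ?_
    have a1 : f n k (ZZ n (32 * N)) ≤ (n : ℚ) ^ (96 * N) := hprodlin _ subset_rfl
    obtain ⟨hl1, hl2, hl3⟩ := G7a.loc_spec (N := N) (i := i - 32 * N) (by omega)
    have a2 : f n k (GG n N (i - 32 * N)) ≤ (n : ℚ) ^ (5 * (G7a.ho (G7a.loc N (i - 32 * N)).1 * N) +
        5 * ((G7a.loc N (i - 32 * N)).2 / 2) + 3 * ((G7a.loc N (i - 32 * N)).2 % 2)) := by
      unfold GG G7a.PA
      rw [pow_add, pow_add]
      refine (f_mul hM n k _ _).trans (mul_le_mul ?_ ?_ (f_nonneg _ _ _) (by positivity))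
      · refine (f_mul hM n k _ _).trans (mul_le_mul ?_ ?_ (f_nonneg _ _ _) (by positivity))
        · exact hprodq _
        · exact hpq _ _
      · refine (f_pow hM n k _ _).trans ?_
        rw [pow_mul]
        exact pow_le_pow_left₀ (f_nonneg _ _ _) hLin3 _
    refine (mul_le_mul a1 a2 (f_nonneg _ _ _) (by positivity)).trans ?_
    rw [← pow_add]
    apply pow_le_pow_right₀ hn1
    omega

end Pool.Agent.H256R2.BM
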