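import Pool.Agent.H256R2.BM.Defs

open Polynomial Pool.Agent.H337R2 Filter Topology Pool.Agent.H216R2.BB

namespace Pool.Agent.H256R2.BM

lemma RHO_nu_nonneg (a : ℚ) (P : ℚ[X]) : 0 ≤ nu a P := by
  unfold nu
  exact Finset.sum_nonneg fun _ _ => abs_nonneg _

lemma RHO_nu_C (a c : ℚ) : nu a (C c) = |c| := by
  unfold nu
  rw [TS_C]
  simp [Finset.sum_range_succ, PowerSeries.coeff_C]

lemma RHO_nu_lin (a b c : ℚ) : nu a (C b * X + C c) = |b * a + c| + |b| := by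
  unfold nu
  rw [map_add, map_mul, TS_C, TS_C, TS_X]
  simp [Finset.sum_range_succ, PowerSeries.coeff_C, PowerSeries.coeff_X, PowerSeries.coeff_C_mul]

lemma RHO_nu_pow (hM : S_RM) (a : ℚ) (P : ℚ[X]) (m : ℕ) : nu a (P ^ (m + 1)) ≤ nu a P ^ (m + 1) := by
  induction m with
  | zero => simp
  | succ m ih =>
    rw [pow_succ P, pow_succ (nu a P)]
    exact (hM _ _ _).trans (mul_le_mul_of_nonneg_right ih (RHO_nu_nonneg _ _))

lemma RHO_PPn (hM : S_RM) (n k : ℕ) (hk : k ≤ 2 * n) :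
    nu (-(k : ℚ)) (PPn n) ≤ ((2 * n).factorial : ℚ) ^ 5 * (2 * n + 2) := by
  unfold PPn
  refine (hM _ _ _).trans ?_
  rw [RHO_nu_C, RHO_nu_lin, abs_of_nonneg (by positivity)]
  refine mul_le_mul_of_nonneg_left ?_ (by positivity)
  have hk' : (k : ℚ) ≤ 2 * n := by exact_mod_cast hk
  have hk0 : (0 : ℚ) ≤ k := by positivity
  have h2 : |(2 : ℚ)| = 2 := abs_of_pos (by norm_num)
  rw [h2]
  have : |2 * -(k : ℚ) + ((2 * n : ℕ) : ℚ)| ≤ 2 * n := by
    rw [abs_le]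
    push_cast
    constructor <;> linarith
  linarith

lemma RHO_xp (hM : S_RM) (n k : ℕ) (hk : k ≤ 2 * n) :
    nu (-(k : ℚ)) (xp n) ≤ ((n : ℚ) + 1) ^ 2 := by
  unfold xp
  refine (hM _ _ _).trans ?_
  have e1 : (X : ℚ[X]) = C 1 * X + C 0 := by simp
  have e2 : (X + C ((2 * n : ℕ) : ℚ) : ℚ[X]) = C 1 * X + C ((2 * n : ℕ) : ℚ) := by simp
  have h1 : nu (-(k : ℚ)) X = (k : ℚ) + 1 := by
    rw [e1, RHO_nu_lin]
    simp
  have hk' : (k : ℚ) ≤ 2 * n := by exact_mod_cast hk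
  have hk0 : (0 : ℚ) ≤ k := by positivity
  have h2 : nu (-(k : ℚ)) (X + C ((2 * n : ℕ) : ℚ)) = (2 * n - k) + 1 := by
    rw [e2, RHO_nu_lin]
    have : |1 * -(k : ℚ) + ((2 * n : ℕ) : ℚ)| = 2 * n - k := by
      rw [abs_of_nonneg (by push_cast; linarith)]
      push_cast
      ring
    rw [this]
    simp
  rw [h1, h2]
  nlinarith [sq_nonneg ((k : ℚ) - n)]

theorem t_RHO (hA : S_RA) (hM : S_RM) (hC : S_RC) : S_RHO := by
  intro N hN n hn i hi j hj c hc1 hc5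
  have hn1 : 2401 ≤ n := by omega
  have hnq : (2401 : ℚ) ≤ n := by exact_mod_cast hn1
  have hn0 : (0 : ℚ) < n := by linarith
  have hn1q : (1 : ℚ) ≤ n := by linarith
  set B : ℚ := 126 ^ (2 * n) * (((2 * n).factorial : ℚ) ^ 5 * (2 * n + 2) *
    ((((n : ℚ) + 1) ^ 2) ^ 7 * ((n : ℚ) ^ (7 * n + 3) * (n : ℚ) ^ (7 * n + 3)))) with hB
  have hterm : ∀ k ∈ sB n, |(-1) ^ k * pa (sB n) m5 (PPn n * EE n (Row n N i * Row n N j)) k c| ≤ B := by
    intro k hk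
    have hk2 : k ≤ 2 * n := by
      have := hk
      unfold sB at this
      rw [Finset.mem_range] at this
      omega
    rw [abs_mul, abs_pow, abs_neg, abs_one, one_pow, one_mul]
    refine (hA n (by omega) _ k c hk hc1 hc5).trans ?_
    rw [hB]
    refine mul_le_mul_of_nonneg_left ?_ (by positivity)
    refine (hM _ _ _).trans ?_
    refine mul_le_mul (RHO_PPn hM n k hk2) ?_ (RHO_nu_nonneg _ _) (by positivity)
    have hE : EE n (Row n N i * Row n N j) =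
        (xp n) ^ (6 + 1) * ((Row n N i).comp (xp n) * (Row n N j).comp (xp n)) := by
      unfold EE
      rw [mul_comp, mul_comp, pow_comp, X_comp]
    rw [hE]
    refine (hM _ _ _).trans ?_
    refine mul_le_mul ?_ ?_ (RHO_nu_nonneg _ _) (by positivity)
    · exact (RHO_nu_pow hM _ _ _).trans (pow_le_pow_left₀ (RHO_nu_nonneg _ _) (RHO_xp hM n k hk2) _)
    · refine (hM _ _ _).trans ?_
      exact mul_le_mul (hC N hN n hn i hi k hk2) (hC N hN n hn j hj k hk2) (RHO_nu_nonneg _ _)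
        (by positivity)
  have hsum : |rho n c (Row n N i * Row n N j)| ≤ (2 * n + 1) * B := by
    unfold rho
    refine (Finset.abs_sum_le_sum_abs _ _).trans ?_
    refine (Finset.sum_le_sum hterm).trans ?_
    rw [Finset.sum_const, nsmul_eq_mul]
    unfold sB
    rw [Finset.card_range]
    push_cast
    exact le_refl _
  refine hsum.trans ?_
  -- numerical bound
  have f1 : (126 : ℚ) ^ (2 * n) ≤ (n : ℚ) ^ (2 * n) :=
    pow_le_pow_left₀ (by norm_num) (by linarith) _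
  have f2 : ((2 * n).factorial : ℚ) ^ 5 ≤ (n : ℚ) ^ (20 * n) := by
    have h1 : ((2 * n).factorial : ℚ) ≤ ((2 * n : ℕ) : ℚ) ^ (2 * n) := by
      exact_mod_cast Nat.factorial_le_pow (2 * n)
    have h2 : ((2 * n : ℕ) : ℚ) ≤ (n : ℚ) ^ 2 := by
      push_cast
      nlinarith
    have h3 : ((2 * n).factorial : ℚ) ≤ ((n : ℚ) ^ 2) ^ (2 * n) :=
      h1.trans (pow_le_pow_left₀ (by positivity) h2 _)
    have h4 := pow_le_pow_left₀ (by positivity) h3 5
    refine h4.trans (le_of_eq ?_)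
    rw [← pow_mul, ← pow_mul]
    congr 1
    ring
  have f3 : (2 * (n : ℚ) + 1) * (2 * n + 2) ≤ (n : ℚ) ^ 3 := by
    nlinarith [mul_pos hn0 hn0]
  have f4 : (((n : ℚ) + 1) ^ 2) ^ 7 ≤ (n : ℚ) ^ 21 := by
    have h1 : ((n : ℚ) + 1) ^ 2 ≤ (n : ℚ) ^ 3 := by nlinarith [mul_pos hn0 hn0]
    refine (pow_le_pow_left₀ (by positivity) h1 7).trans (le_of_eq ?_)
    rw [← pow_mul]
  calc (2 * (n : ℚ) + 1) * B
      = (126 ^ (2 * n)) * (((2 * n).factorial : ℚ) ^ 5) * ((2 * (n : ℚ) + 1) * (2 * n + 2)) *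
        ((((n : ℚ) + 1) ^ 2) ^ 7) * ((n : ℚ) ^ (7 * n + 3) * (n : ℚ) ^ (7 * n + 3)) := by
        rw [hB]; ring
    _ ≤ ((n : ℚ) ^ (2 * n)) * ((n : ℚ) ^ (20 * n)) * ((n : ℚ) ^ 3) * ((n : ℚ) ^ 21) *
        ((n : ℚ) ^ (7 * n + 3) * (n : ℚ) ^ (7 * n + 3)) := by
        gcongr
    _ = (n : ℚ) ^ (36 * n + 30) := by
        rw [← pow_add, ← pow_add, ← pow_add, ← pow_add, ← pow_add]
        congr 1
        ring
    _ ≤ (n : ℚ) ^ (40 * n) := by
        refine pow_le_pow_right₀ hn1q ?_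
        omega

end Pool.Agent.H256R2.BM
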