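import Pool.Agent.H256R2.BM.Defs

/-! Task RM: the sum of the absolute values of the first five Taylor coefficients is
submultiplicative. -/

set_option autoImplicit false

open Polynomial Pool.Agent.H337R2 Filter Topology Pool.Agent.H216R2.BB

namespace Pool.Agent.H256R2.BM

theorem RM_aux (f g : ℕ → ℚ) (hf : ∀ i, 0 ≤ f i) (hg : ∀ i, 0 ≤ g i) :
    ∑ d ∈ Finset.range 5, ∑ p ∈ Finset.HasAntidiagonal.antidiagonal d, f p.1 * g p.2 ≤
      (∑ i ∈ Finset.range 5, f i) * ∑ j ∈ Finset.range 5, g j := by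
  have h : ∀ i j, 0 ≤ f i * g j := fun i j => mul_nonneg (hf i) (hg j)
  simp only [Finset.Nat.sum_antidiagonal_eq_sum_range_succ_mk, Finset.sum_range_succ,
    Finset.sum_range_zero]
  have := h 1 4
  have := h 2 3
  have := h 3 2
  have := h 4 1
  have := h 2 4
  have := h 3 3
  have := h 4 2
  have := h 3 4
  have := h 4 3
  have := h 4 4
  norm_num
  linarith

theorem RM_ps (F G : PowerSeries ℚ) :
    ∑ d ∈ Finset.range 5, |PowerSeries.coeff d (F * G)| ≤
      (∑ d ∈ Finset.range 5, |PowerSeries.coeff d F|) *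
        ∑ d ∈ Finset.range 5, |PowerSeries.coeff d G| := by
  refine le_trans (Finset.sum_le_sum fun d _ => ?_) (RM_aux (fun i => |PowerSeries.coeff i F|)
    (fun i => |PowerSeries.coeff i G|) (fun i => abs_nonneg _) (fun i => abs_nonneg _))
  rw [PowerSeries.coeff_mul]
  refine (Finset.abs_sum_le_sum_abs _ _).trans (Finset.sum_le_sum fun p _ => ?_)
  rw [abs_mul]

theorem t_RM : S_RM := by
  intro a P Q
  unfold nu
  rw [map_mul]
  exact RM_ps _ _

end Pool.Agent.H256R2.BM
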