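import Pool.Agent.H256R2.BM.Defs
import Pool.Agent.H216R2.BB.G7a

/-!
# Task ROW (helper877)
-/

open Polynomial Pool.Agent.H337R2 Filter Topology Pool.Agent.H216R2.BB

namespace Pool.Agent.H256R2.BM

noncomputable section

lemma ROW_key {C0 : ℝ} {N n : ℕ} (h1 : Real.exp (|Phi0| + 1) ≤ N) (h2 : |Real.log C0| + 1 ≤ N)
    (hn : n = 24 * N + 1) (hN : 1 ≤ N) :
    1 ≤ Real.log C0 + n * Phi0 + 128 * N * Real.log n ∧
      0 ≤ n * Phi0 + 128 * N * Real.log n := by
  have hN' : (1 : ℝ) ≤ N := by exact_mod_cast hN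
  have hn' : (n : ℝ) = 24 * N + 1 := by rw [hn]; push_cast; ring
  have hl : |Phi0| + 1 ≤ Real.log n := by
    have h3 : Real.exp (|Phi0| + 1) ≤ n := by rw [hn']; linarith
    calc |Phi0| + 1 = Real.log (Real.exp (|Phi0| + 1)) := (Real.log_exp _).symm
      _ ≤ Real.log n := Real.log_le_log (Real.exp_pos _) h3
  have ha : 0 ≤ |Phi0| := abs_nonneg _
  have h3 : -(25 * N * |Phi0|) ≤ n * Phi0 := by
    have e1 : -|Phi0| ≤ Phi0 := neg_abs_le _
    have e2 : (n : ℝ) * (-|Phi0|) ≤ n * Phi0 := mul_le_mul_of_nonneg_left e1 (Nat.cast_nonneg n)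
    have e3 : (n : ℝ) * |Phi0| ≤ 25 * N * |Phi0| := by
      apply mul_le_mul_of_nonneg_right _ ha
      rw [hn']
      linarith
    linarith
  have h4 : 128 * N * (|Phi0| + 1) ≤ 128 * N * Real.log n :=
    mul_le_mul_of_nonneg_left hl (by positivity)
  have h5 : -|Real.log C0| ≤ Real.log C0 := neg_abs_le _
  have h6 : 0 ≤ (N : ℝ) * |Phi0| := by positivity
  constructor
  · nlinarith
  · nlinarith

theorem t_ROW : S_ROW := by
  obtain ⟨C0, K0, hC0, h⟩ := G1_main
  have hG2 : G7a.G2S := fun hN hn y b => G2_qb hN hn y b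
  have hG3 : G7a.G3S := G3_cert
  refine ⟨2592 * C0 + 1, K0 + 4, 100 + ⌈Real.exp (|Phi0| + 1)⌉₊ + ⌈|Real.log C0| + 1⌉₊,
    by positivity, by omega, fun N hN0 n hn =>
      ⟨fun j => G7a.al C0 K0 n N (G7a.loc N j).1 (G7a.loc N j).2 + Real.log 2, ?_, ?_, ?_, ?_⟩⟩
  all_goals
    have hN : 100 ≤ N := by omega
    have hk1 : Real.exp (|Phi0| + 1) ≤ N := by
      have e1 : ⌈Real.exp (|Phi0| + 1)⌉₊ ≤ N := by omega
      exact (Nat.le_ceil _).trans (by exact_mod_cast e1)
    have hk2 : |Real.log C0| + 1 ≤ N := by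
      have e1 : ⌈|Real.log C0| + 1⌉₊ ≤ N := by omega
      exact (Nat.le_ceil _).trans (by exact_mod_cast e1)
    obtain ⟨hkey1, hkey2⟩ := ROW_key hk1 hk2 hn (by omega)
    have h1n : (1 : ℝ) ≤ n := by exact_mod_cast (by omega : 1 ≤ n)
    have h0n : (0 : ℝ) < n := by linarith
    have hl : 0 ≤ Real.log n := Real.log_natCast_nonneg n
    have hl2 : 0 ≤ Real.log 2 := Real.log_nonneg (by norm_num)
  · intro j hj y
    obtain ⟨h1, _, h3⟩ := G7a.loc_spec hj
    have h4 := G7a.PA_bound hG2 hG3 hC0 h hN hn h1 h3 y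
    rw [Real.exp_add, Real.exp_log (by norm_num), mul_div_assoc, div_self (by norm_num), mul_one]
    exact h4
  · intro j hj
    obtain ⟨h1, _, h3⟩ := G7a.loc_spec hj
    show 1 ≤ G7a.al C0 K0 n N (G7a.loc N j).1 (G7a.loc N j).2 + Real.log 2
    have hN1 : 1 ≤ N := by omega
    rw [G7a.al_eq hN1]
    have e1 : 0 ≤ Real.log (36 * (n : ℝ) ^ 2) := by
      apply Real.log_nonneg
      nlinarith
    have e2 : (0 : ℝ) ≤ K0 * Real.log n := by positivity
    have e3 : 0 ≤ 4 * ((2 * (G7a.ho (G7a.loc N j).1 * N) : ℕ) +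
        2 * (((G7a.loc N j).2 / 2 : ℕ) : ℝ)) * Real.log n := by positivity
    have e4 : 0 ≤ (tb ((G7a.loc N j).1 + 1) : ℝ) - tb (G7a.loc N j).1 :=
      sub_nonneg.2 (G7a.tb_mono h1)
    have e5 : 0 ≤ N * Real.log 2 * ((tb (G7a.loc N j).1 : ℝ) +
        (((G7a.loc N j).2 / 2 : ℕ) : ℝ) / ((sg (G7a.loc N j).1 * N : ℕ) : ℝ) *
          ((tb ((G7a.loc N j).1 + 1) : ℝ) - tb (G7a.loc N j).1)) := by positivity
    linarith
  · intro y
    have h5 := G7a.HH_bound hG2 hG3 hC0 h hN hn y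
    have hB : 1 ≤ BN n N := by
      have e1 : (1 : ℝ) ≤ (n : ℝ) ^ (128 * N) * Real.exp (n * Phi0) := by
        have e2 : (n : ℝ) ^ (128 * N) = Real.exp (128 * N * Real.log n) := by
          have : (128 * N * Real.log n : ℝ) = ((128 * N : ℕ) : ℝ) * Real.log n := by
            push_cast; ring
          rw [this, Real.exp_nat_mul, Real.exp_log h0n]
        rw [e2, ← Real.exp_add]
        apply Real.one_le_exp
        linarith
      unfold BN
      have e3 : (1 : ℝ) ≤ (n : ℝ) ^ (112 * N) := one_le_pow₀ h1n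
      have e4 : (1 : ℝ) ≤ 2 ^ (56 * N) := one_le_pow₀ (by norm_num)
      exact one_le_mul_of_one_le_of_one_le (one_le_mul_of_one_le_of_one_le e1 e3) e4
    have hK : (1 : ℝ) ≤ (n : ℝ) ^ K0 := one_le_pow₀ h1n
    have hKB : (1 : ℝ) ≤ (n : ℝ) ^ K0 * BN n N := one_le_mul_of_one_le_of_one_le hK hB
    have hKK : (n : ℝ) ^ K0 ≤ (n : ℝ) ^ (K0 + 4) := pow_le_pow_right₀ h1n (by omega)
    have hB0 : 0 ≤ BN n N := by linarith
    calc _ ≤ C0 * (n : ℝ) ^ K0 * BN n N + 1 := by linarith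
      _ ≤ C0 * (n : ℝ) ^ K0 * BN n N + (n : ℝ) ^ K0 * BN n N := by linarith
      _ ≤ (2592 * C0 + 1) * ((n : ℝ) ^ K0 * BN n N) := by nlinarith
      _ ≤ (2592 * C0 + 1) * ((n : ℝ) ^ (K0 + 4) * BN n N) := by
          apply mul_le_mul_of_nonneg_left _ (by positivity)
          exact mul_le_mul_of_nonneg_right hKK hB0
      _ = _ := by ring
  · have h6 := G7a.sum_al (C := C0) (K := K0) (n := n) (N := N) (by omega)
    rw [Finset.sum_add_distrib, Finset.sum_const, Finset.card_range, nsmul_eq_mul]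
    have e1 : Real.log (36 * (n : ℝ) ^ 2) = Real.log 36 + 2 * Real.log n := by
      rw [Real.log_mul (by norm_num) (by positivity), Real.log_pow]
      push_cast
      ring
    have e2 : 2 * Real.log 36 + Real.log C0 + Real.log 2 ≤ Real.log (2592 * C0 + 1) := by
      have e3 : Real.log (2592 * C0) = 2 * Real.log 36 + Real.log C0 + Real.log 2 := by
        have : (2592 * C0 : ℝ) = 36 ^ 2 * C0 * 2 := by ring
        rw [this, Real.log_mul (by positivity) (by norm_num), Real.log_mul (by norm_num) hC0.ne',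
          Real.log_pow]
        push_cast
        ring
      rw [← e3]
      exact Real.log_le_log (by positivity) (by linarith)
    rw [e1] at h6
    have e4 : ((28 * N : ℕ) : ℝ) * (2 * Real.log 36 + Real.log C0 + Real.log 2) ≤
        ((28 * N : ℕ) : ℝ) * Real.log (2592 * C0 + 1) :=
      mul_le_mul_of_nonneg_left e2 (Nat.cast_nonneg _)
    push_cast at h6 e4 ⊢
    linarith

end

end Pool.Agent.H256R2.BM
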